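import Pool.Agent.Q20.TR.Odd
import Pool.Agent.Q20.LG.Const2

/-!
# Additive inductive functions of characters which vanish at the generators
-/

set_option autoImplicit false
set_option linter.unusedSectionVars false

namespace Pool.Agent.Q20.TR

open NumberField Pool.Agent.Q273.SP Pool.Agent.Q246.RP Pool.Agent.Q20.LG
open Pool.Agent.Q246.BI (Smooth IsCharacter induced NN)
open scoped Classical

section
variable {K : Type} [Field K] [NumberField K]

/-- linear characters are characters -/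
theorem lin_isCharacter (F : IntermediateField K (AlgebraicClosure K)) (ψ : F.fixingSubgroup →* ℂˣ)
    (hψ : Smooth F ψ) : IsCharacter F (fun g => ((ψ g : ℂˣ) : ℂ)) := by
  refine ⟨1, (Units.map (Matrix.scalar (Fin 1) (α := ℂ)).toMonoidHom).comp ψ, ?_, fun g => ?_⟩
  · obtain ⟨E', hE', hEψ⟩ := hψ
    exact ⟨E', hE', fun g hg => by rw [MonoidHom.comp_apply, hEψ g hg, map_one]⟩
  · change ((ψ g : ℂˣ) : ℂ) = (Matrix.scalar (Fin 1) ((ψ g : ℂˣ) : ℂ)).trace
    simp [Matrix.trace]

/-- the twist of a linear character -/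
noncomputable def twl (ε : Gal(AlgebraicClosure K/K) →* ℂˣ)
    (F : IntermediateField K (AlgebraicClosure K)) (ψ : F.fixingSubgroup →* ℂˣ) :
    F.fixingSubgroup →* ℂˣ := ε.comp F.fixingSubgroup.subtype * ψ

theorem twl_smooth {ε : Gal(AlgebraicClosure K/K) →* ℂˣ} (hε : Quad ε)
    (F : IntermediateField K (AlgebraicClosure K)) {ψ : F.fixingSubgroup →* ℂˣ}
    (hψ : Smooth F ψ) : Smooth F (twl ε F ψ) := by
  obtain ⟨E, hE, h1⟩ := hε.smooth
  obtain ⟨E', hE', h2⟩ := hψ
  refine ⟨E ⊔ E', inferInstance, fun g hg => ?_⟩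
  have h3 := IntermediateField.fixingSubgroup_antitone (le_sup_left : E ≤ E ⊔ E') hg
  have h4 := IntermediateField.fixingSubgroup_antitone (le_sup_right : E' ≤ E ⊔ E') hg
  change ε g * ψ g = 1
  rw [h1 _ h3, h2 _ h4, mul_one]

theorem twl_fun (ε : Gal(AlgebraicClosure K/K) →* ℂˣ)
    (F : IntermediateField K (AlgebraicClosure K)) (ψ : F.fixingSubgroup →* ℂˣ) :
    (fun g : F.fixingSubgroup => ((ε g : ℂˣ) : ℂ) * ((ψ g : ℂˣ) : ℂ)) =
      fun g => ((twl ε F ψ g : ℂˣ) : ℂ) := rfl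

variable [IsTotallyReal K] {B : Type} [AddCommGroup B]

/-- **Rigidity.** -/
theorem rigid (htf : ∀ (m : ℕ) (b : B), 0 < m → m • b = 0 → b = 0)
    (D : ∀ F : IntermediateField K (AlgebraicClosure K), (F.fixingSubgroup → ℂ) → B)
    (hadd : ∀ F : IntermediateField K (AlgebraicClosure K), FiniteDimensional K F →
      ∀ χ χ' : F.fixingSubgroup → ℂ, IsCharacter F χ → IsCharacter F χ' →
        D F (χ + χ') = D F χ + D F χ')
    (hind : ∀ F F' : IntermediateField K (AlgebraicClosure K), F ≤ F' → FiniteDimensional K F' →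
      ∀ χ : F'.fixingSubgroup → ℂ, IsCharacter F' χ → D F (induced F F' χ) = D F' χ)
    {M : ℕ} (hM : 0 < M) {ε : Gal(AlgebraicClosure K/K) →* ℂˣ} (hε : Quad ε) (S : Finset ℕ)
    (L : IntermediateField K (AlgebraicClosure K)) (hL : FiniteDimensional K L)
    (h1 : ∀ F : IntermediateField K (AlgebraicClosure K), FiniteDimensional K F →
      D F (fun _ => 1) = 0)
    (h2 : ∀ F : IntermediateField K (AlgebraicClosure K), FiniteDimensional K F →
      IsEmpty (F →+* ℝ) → M ∣ Module.finrank K F → Big ∅ S L F →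
        ∀ ψ : F.fixingSubgroup →* ℂˣ, Smooth F ψ → UnrS ∅ S F ψ →
          D F (fun g => ((ψ g : ℂˣ) : ℂ)) = 0)
    (h3 : ∀ F : IntermediateField K (AlgebraicClosure K), FiniteDimensional K F →
      IsTotallyReal F → ∀ p : ℕ, p.Prime → ∀ ψ : F.fixingSubgroup →* ℂˣ, Smooth F ψ →
        Even F ψ → UnrS {p} S F ψ →
          D F (fun g => ((ε g : ℂˣ) : ℂ) * ((ψ g : ℂˣ) : ℂ)) = 0)
    (F : IntermediateField K (AlgebraicClosure K)) (hF : FiniteDimensional K F)
    (χ : F.fixingSubgroup → ℂ) (hχ : IsCharacter F χ) : D F χ = 0 := by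
  obtain ⟨E, hE⟩ := exists_E D hadd
  have hbot : FiniteDimensional K (bt K) := inferInstance
  rw [← hind (bt K) F bot_le hF χ hχ]
  have hχ' : IsCharacter (bt K) (induced (bt K) F χ) := isCharacter_ind (bt K) F hF hχ
  have hmem : induced (bt K) F χ ∈ RChar (bt K).fixingSubgroup :=
    AddSubgroup.subset_closure ((isChar_iff (bt K) _).1 hχ')
  obtain ⟨m, hm, h4⟩ := induction_theorem hM hε S L hmem
  have h5 : ∀ f ∈ AddSubgroup.closure (GenAll M ε S L),
      ∃ hf : f ∈ RChar (bt K).fixingSubgroup, E (bt K) ⟨f, hf⟩ = 0 := by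
    intro f hf
    induction hf using AddSubgroup.closure_induction with
    | mem f hf =>
      rcases hf with hf | hf
      · obtain ⟨⟨p, hp⟩, F', ψ, hfd, hr, hs, he, hu, rfl⟩ := Set.mem_iUnion.1 hf
        have h6 := lin_isCharacter F' (twl ε F' ψ) (twl_smooth hε F' hs)
        have h7 := isCharacter_ind (bt K) F' hfd h6
        refine ⟨AddSubgroup.subset_closure ((isChar_iff (bt K) _).1 h7), ?_⟩
        rw [hE (bt K) hbot _ h7]
        exact (hind (bt K) F' bot_le hfd _ h6).trans (h3 F' hfd hr p hp ψ hs he hu)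
      · obtain ⟨F', ψ, hle, hfd, hs, hc, rfl⟩ := hf
        have h6 := lin_isCharacter F' ψ hs
        have h7 := isCharacter_ind (bt K) F' hfd h6
        refine ⟨AddSubgroup.subset_closure ((isChar_iff (bt K) _).1 h7), ?_⟩
        rw [hE (bt K) hbot _ h7]
        refine (hind (bt K) F' bot_le hfd _ h6).trans ?_
        rcases hc with ⟨ha, hb, hc, hd⟩ | rfl
        · exact h2 F' hfd ha hb hc ψ hs hd
        · exact h1 F' hfd
    | zero => exact ⟨zero_mem _, map_zero (E (bt K))⟩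
    | add a b _ _ ha hb =>
      obtain ⟨ha, h8⟩ := ha
      obtain ⟨hb, h9⟩ := hb
      refine ⟨add_mem ha hb, ?_⟩
      have h10 : E (bt K) (⟨a, ha⟩ + ⟨b, hb⟩) = 0 := by rw [map_add, h8, h9, add_zero]
      exact h10
    | neg a _ ha =>
      obtain ⟨ha, h8⟩ := ha
      refine ⟨neg_mem ha, ?_⟩
      have h10 : E (bt K) (-⟨a, ha⟩) = 0 := by rw [map_neg, h8, neg_zero]
      exact h10
  obtain ⟨h6, h7⟩ := h5 _ h4
  apply htf m _ hm
  rw [← hE (bt K) hbot ⟨_, hmem⟩ hχ', ← map_nsmul]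
  exact h7

end

end Pool.Agent.Q20.TR
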