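import Pool.Agent.Q20.TR.Rig

/-!
# Totally even and totally odd virtual characters
-/

set_option autoImplicit false
set_option linter.unusedSectionVars false

namespace Pool.Agent.Q20.TR

open NumberField IsDedekindDomain Pool.Agent.Q273.SP Pool.Agent.Q246.RP Pool.Agent.Q20.LG
open Pool.Agent.Q246.BI (Smooth IsCharacter induced NN)
open scoped Classical

section
variable {Γ : Type} [Group Γ] [TopologicalSpace Γ] [IsTopologicalGroup Γ] [CompactSpace Γ]
  [TotallyDisconnectedSpace Γ]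

/-- virtual characters are differences of characters -/
theorem exists_diff {f : Γ → ℂ} (hf : f ∈ RChar Γ) :
    ∃ a b : Γ → ℂ, IsChar a ∧ IsChar b ∧ f = a - b := by
  induction hf using AddSubgroup.closure_induction with
  | mem f hf => exact ⟨f, 0, hf, isChar_zero, (sub_zero f).symm⟩
  | zero => exact ⟨0, 0, isChar_zero, isChar_zero, (sub_zero _).symm⟩
  | add x y _ _ hx hy =>
    obtain ⟨a, b, ha, hb, rfl⟩ := hx
    obtain ⟨c, d, hc, hd, rfl⟩ := hy
    exact ⟨a + c, b + d, ha.add hc, hb.add hd, by abel⟩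
  | neg x _ hx =>
    obtain ⟨a, b, ha, hb, rfl⟩ := hx
    exact ⟨b, a, hb, ha, by abel⟩

end

section
variable {K : Type} [Field K] [NumberField K] [IsTotallyReal K]

theorem Quad.isChar {ε : Gal(AlgebraicClosure K/K) →* ℂˣ} (h : Quad ε) :
    IsChar (fun g : (bt K).fixingSubgroup => ((ε g : ℂˣ) : ℂ)) := by
  obtain ⟨E, hE, hEε⟩ := h.smooth
  refine ⟨1, (Units.map (Matrix.scalar (Fin 1) (α := ℂ)).toMonoidHom).comp
    (ε.comp (bt K).fixingSubgroup.subtype), E.fixingSubgroup.subgroupOf (bt K).fixingSubgroup,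
    isOpen_sub (bt K) E, fun g hg => ?_, fun g => ?_⟩
  · rw [MonoidHom.comp_apply, MonoidHom.comp_apply]
    have h1 : ε ((bt K).fixingSubgroup.subtype g) = 1 := hEε _ hg
    rw [h1, map_one]
  · change _ = (Matrix.scalar (Fin 1) ((ε g : ℂˣ) : ℂ)).trace
    simp [Matrix.trace]

theorem tw_char {ε : Gal(AlgebraicClosure K/K) →* ℂˣ} (h : Quad ε) {a : Gal(treal K/K) → ℂ}
    (ha : IsChar a) : IsCharacter (bt K) (tw ε a) := by
  rw [isChar_iff]
  exact isChar_mul h.isChar (isChar_comp (pi K) pi_continuous ha)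

theorem tw_cc {ε : Gal(AlgebraicClosure K/K) →* ℂˣ} {s : ℂˣ} {c : (bt K).fixingSubgroup}
    (hs : ε c = s) (hc : IsCC (c : Gal(AlgebraicClosure K/K))) (a : Gal(treal K/K) → ℂ) :
    tw ε a c = (s : ℂ) * tw ε a 1 := by
  have h1 : pi K c = 1 := rho_cc hc
  change ((ε c : ℂˣ) : ℂ) * a (pi K c) = (s : ℂ) * (((ε (1 : Gal(AlgebraicClosure K/K)) : ℂˣ) : ℂ) *
    a (pi K 1))
  rw [h1, hs, map_one, map_one, Units.val_one, one_mul]

/-- approximation by virtual characters of given parity -/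
theorem approx_par {w : HeightOneSpectrum (𝓞 (bt K)) → (AlgebraicClosure K → ℝ)}
    (hw : ∀ v, Above (bt K) v (w v)) (P : Finset (HeightOneSpectrum (𝓞 (bt K))))
    (φ : ∀ v, decF (bt K) (w v) → ℂ) (hφ : ∀ v ∈ P, φ v ∈ RChar (decF (bt K) (w v)))
    {ε : Gal(AlgebraicClosure K/K) →* ℂˣ} (hε : Quad ε) :
    ∃ m : ℕ, 0 < m ∧ ∃ f₁ ∈ RChar Gal(treal K/K),
      (∀ v ∈ P, ∀ g : decF (bt K) (w v),
        tw ε f₁ g = m * (φ v g - φ v 1 * ((ε g : ℂˣ) : ℂ))) ∧
      ∀ v, v ∉ P → (fun g : decF (bt K) (w v) => tw ε f₁ g) ∈ VL (bt K) (w v) := by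
  obtain ⟨m, hm, f₁, hf₁, h1, h2⟩ := surjT hw P
    (fun v g => ((ε g : ℂˣ) : ℂ) * φ v g)
    (fun v hv => rchar_mul (rchar_res (decF (bt K) (w v)) hε.rchar) (hφ v hv))
  refine ⟨m, hm, f₁, hf₁, fun v hv g => ?_, fun v hv => ?_⟩
  · have h4 := h1 v hv g
    have h5 := hε.sqC ((g : (bt K).fixingSubgroup) : Gal(AlgebraicClosure K/K))
    change ((ε g : ℂˣ) : ℂ) * infl f₁ g = _
    rw [h4, nsmul_eq_mul, OneMemClass.coe_one, OneMemClass.coe_one, map_one, Units.val_one,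
      one_mul]
    linear_combination (m : ℂ) * φ v g * h5
  · have h3 := (mem_vl_iff (hw v) (rchar_res (decF (bt K) (w v)) (infl_mem hf₁))).1 (h2 v hv)
    refine (mem_vl_iff (hw v) (rchar_res (decF (bt K) (w v)) (tw_mem hε hf₁))).2 ?_
    intro a b hab ht
    have hab' := (same_sub (Δ := decF (bt K) (w v)) a b).1 hab
    have h4 := h3 a b hab ht
    change ((ε a : ℂˣ) : ℂ) * infl f₁ a = ((ε b : ℂˣ) : ℂ) * infl f₁ b
    change infl f₁ a = infl f₁ b at h4
    rw [h4, hε.same hab']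

end

end Pool.Agent.Q20.TR
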