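import Pool.Agent.Q20.LG.Appr2

/-!
# Approximation of virtual characters of independent closed subgroups, with control of the values
-/

set_option autoImplicit false
set_option linter.unusedSectionVars false

namespace Pool.Agent.Q20.TR

open Pool.Agent.Q246.BI Pool.Agent.Q20.LG
open Subgroup (zpowers)
open scoped Classical

section
variable {Γ : Type} [Group Γ] [TopologicalSpace Γ] [IsTopologicalGroup Γ]
variable [CompactSpace Γ] [TotallyDisconnectedSpace Γ]

/-- **Approximation**, with control of the values. -/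
theorem approxV [T2Space Γ] {ι : Type} [Finite ι] (D : ι → Subgroup Γ)
    (hDc : ∀ i, IsClosed (D i : Set Γ))
    (hmal : ∀ (i j : ι) (x a b : Γ), a ∈ D i → b ∈ D j → x⁻¹ * a * x = b → a ≠ 1 →
      i = j ∧ x ∈ D i)
    (φ : ∀ i, D i → ℂ) (hφ : ∀ i, φ i ∈ RChar (D i)) (d : ℂ) (hd : ∀ i, φ i 1 = d) :
    ∃ m : ℕ, 0 < m ∧ ∃ f ∈ RChar Γ, (∀ (i : ι) (g : D i), f g = m • φ i g) ∧
      ∀ g, f g = 0 ∨ ∃ (i : ι) (a : D i), f g = m • φ i a := by
  have hcomp : ∀ i, CompactSpace (D i) := fun i => isCompact_iff_compactSpace.1 (hDc i).isCompact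
  have htop : Lv (⊤ : Subgroup Γ) ⊤ := ⟨inferInstance, isOpen_univ, le_rfl⟩
  have hcls : ∀ i, ∀ x g : D i, φ i (x⁻¹ * g * x) = φ i g := by
    intro i x g
    obtain ⟨N₁, h₁, h2⟩ := exists_lift (hφ i)
    have hn := h₁.1
    obtain ⟨f', hf', h3⟩ := h2 N₁ le_rfl
    have hfin := fin_quot h₁.2.1
    rw [h3, h3, map_mul, map_mul, map_inv, vch_cls hf']
  -- the levels of the functions
  have hlev1 : ∀ i, ∃ N, Lv (⊤ : Subgroup Γ) N ∧ ∀ (N' : Subgroup (D i)) [N'.Normal],
      (∀ g : D i, g ∈ N' → (g : Γ) ∈ N) →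
      ∃ f' ∈ Vch (D i ⧸ N'), ∀ g, φ i g = f' (QuotientGroup.mk' N' g) := by
    intro i
    obtain ⟨N₁, h₁, h2⟩ := exists_lift (hφ i)
    obtain ⟨N, hN, h3⟩ := exists_level_sub h₁.2.1 htop
    exact ⟨N, hN, fun N' _ hN' => h2 N' fun g hg => h3 g (hN' g hg)⟩
  choose N₁ hN₁ hlift using hlev1
  -- the levels which separate
  have hlev2 : ∀ z : ι × ι, ∃ N, Lv (⊤ : Subgroup Γ) N ∧
      ∀ (a : D z.1) (b : D z.2) (x : Γ), (x⁻¹ * a * x)⁻¹ * b ∈ N → φ z.1 a = φ z.2 b := by
    rintro ⟨i, j⟩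
    by_contra hcon
    push Not at hcon
    let Z : Subgroup Γ → Set (D i × D j × Γ) := fun N =>
      {z | (z.2.2⁻¹ * (z.1 : Γ) * z.2.2)⁻¹ * z.2.1 ∈ N} ∩ {z | φ i z.1 - φ j z.2.1 ∈ ({0} : Set ℂ)ᶜ}
    obtain ⟨⟨a, b, x⟩, hz⟩ := exists_common htop Z (fun N N' h z hz => ⟨h hz.1, hz.2⟩)
      (fun N hN => by
        have hNc : IsClosed (N : Set Γ) := N.isClosed_of_isOpen hN.2.1
        refine IsClosed.inter (hNc.preimage ?_) ?_
        · fun_prop
        · have h1 : IsLocallyConstant (fun z : D i × D j × Γ => φ i z.1 - φ j z.2.1) :=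
            ((rchar_loc (hφ i)).comp_continuous continuous_fst).sub
              ((rchar_loc (hφ j)).comp_continuous (continuous_fst.comp continuous_snd))
          exact ⟨by
            have h2 := h1 {0}
            have h3 : {z : D i × D j × Γ | φ i z.1 - φ j z.2.1 ∈ ({0} : Set ℂ)ᶜ}ᶜ =
                (fun z : D i × D j × Γ => φ i z.1 - φ j z.2.1) ⁻¹' {0} := by
              ext z
              simp
            rw [h3]
            exact h2⟩)
      (fun N hN => by
        obtain ⟨a, b, x, h1, h2⟩ := hcon N hN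
        exact ⟨(a, b, x), h1, fun h => h2 (sub_eq_zero.1 h)⟩)
    have hab : x⁻¹ * (a : Γ) * x = b := by
      rw [← inv_mul_eq_one]
      by_contra hne
      obtain ⟨N, hN, hNU⟩ := exists_level (U := {y : Γ | y ≠ (x⁻¹ * (a : Γ) * x)⁻¹ * b})
        isOpen_ne (fun h => hne h.symm) htop
      exact hNU (hz N hN).1 rfl
    have hφne : φ i a ≠ φ j b := fun h => (hz ⊤ htop).2 (sub_eq_zero.2 h)
    by_cases ha : (a : Γ) = 1
    · have hb : (b : Γ) = 1 := by
        rw [← hab, ha]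
        group
      apply hφne
      have ha' : a = 1 := Subtype.ext ha
      have hb' : b = 1 := Subtype.ext hb
      rw [ha', hb']
      exact (hd i).trans (hd j).symm
    · obtain ⟨rfl, hx⟩ := hmal i j x a b a.2 b.2 hab ha
      apply hφne
      have h1 := hcls i ⟨x, hx⟩ a
      rw [← h1]
      congr 1
      exact Subtype.ext hab
  choose N₂ hN₂ hsep' using hlev2
  have hL1 := Lv.iInf htop N₁ hN₁
  have hL2 := Lv.iInf htop N₂ hN₂
  have hN := hL1.inf hL2
  set N : Subgroup Γ := (⊤ ⊓ ⨅ i, N₁ i) ⊓ (⊤ ⊓ ⨅ z, N₂ z) with hNdef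
  have hNn := hN.1
  have hfin := fin_quot hN.2.1
  have hle1 : ∀ i, N ≤ N₁ i := fun i => inf_le_left.trans (inf_le_right.trans (iInf_le _ i))
  have hle2 : ∀ z, N ≤ N₂ z := fun z => inf_le_right.trans (inf_le_right.trans (iInf_le _ z))
  let q : Γ →* Γ ⧸ N := QuotientGroup.mk' N
  have hq : Function.Surjective q := QuotientGroup.mk'_surjective N
  have hsep : ∀ (i j : ι) (a : D i) (b : D j) (x y : Γ),
      q (x⁻¹ * a * x) = q (y⁻¹ * b * y) → φ i a = φ j b := by
    intro i j a b x y h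
    have h1 : (x⁻¹ * a * x)⁻¹ * (y⁻¹ * b * y) ∈ N := QuotientGroup.eq.1 h
    refine hsep' (i, j) a b (x * y⁻¹) (hle2 (i, j) ?_)
    have h2 := hNn.conj_mem _ h1 y
    have h3 : y * ((x⁻¹ * a * x)⁻¹ * (y⁻¹ * b * y)) * y⁻¹ =
        ((x * y⁻¹)⁻¹ * a * (x * y⁻¹))⁻¹ * b := by group
    rwa [h3] at h2
  -- the function
  let P : Γ ⧸ N → Prop := fun c => ∃ z : (Σ i, D i × Γ), q (z.2.2⁻¹ * z.2.1 * z.2.2) = c
  let f : Γ ⧸ N → ℂ := fun c => if h : P c then φ _ h.choose.2.1 else 0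
  have hfv : ∀ (i : ι) (a : D i) (x : Γ), f (q (x⁻¹ * a * x)) = φ i a := by
    intro i a x
    have h : P (q (x⁻¹ * a * x)) := ⟨⟨i, a, x⟩, rfl⟩
    change (if h : P (q (x⁻¹ * a * x)) then φ _ h.choose.2.1 else 0) = _
    rw [dif_pos h]
    exact hsep _ _ _ _ _ _ h.choose_spec
  have hfz : ∀ c, ¬ P c → f c = 0 := fun c h => dif_neg h
  have hcl : Cls f := by
    intro y c
    obtain ⟨y, rfl⟩ := hq y
    by_cases h : P c
    · obtain ⟨⟨i, a, x⟩, rfl⟩ := h
      change f ((q y)⁻¹ * q (x⁻¹ * a * x) * q y) = f (q (x⁻¹ * a * x))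
      rw [hfv, ← map_inv, ← map_mul, ← map_mul]
      have h1 : y⁻¹ * (x⁻¹ * a * x) * y = (x * y)⁻¹ * a * (x * y) := by group
      rw [h1, hfv]
    · have h' : ¬ P ((q y)⁻¹ * c * q y) := by
        rintro ⟨⟨i, a, x⟩, h1⟩
        change q (x⁻¹ * a * x) = _ at h1
        apply h
        refine ⟨⟨i, a, x * y⁻¹⟩, ?_⟩
        change q ((x * y⁻¹)⁻¹ * a * (x * y⁻¹)) = c
        have h2 : (x * y⁻¹)⁻¹ * (a : Γ) * (x * y⁻¹) = y * (x⁻¹ * a * x) * y⁻¹ := by group
        rw [h2, map_mul, map_mul, h1, map_inv]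
        group
      rw [hfz _ h, hfz _ h']
  obtain ⟨m, hm, h1⟩ := mem_vch_of_local hcl (fun C hC => by
    by_cases hgen : ∃ c, zpowers c = C ∧ P c
    · right
      obtain ⟨c, hc, ⟨i, a, x⟩, hcx⟩ := hgen
      change q (x⁻¹ * a * x) = c at hcx
      let N' : Subgroup (D i) := N.subgroupOf (D i)
      have hN'n : N'.Normal := inferInstance
      obtain ⟨η, hη, hφη⟩ := hlift i N' (fun g hg => hle1 i hg)
      let κ : D i ⧸ N' →* Γ ⧸ N := QuotientGroup.lift N' (q.comp (D i).subtype) (by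
        intro g hg
        exact (QuotientGroup.eq_one_iff _).2 hg)
      have hκ : Function.Injective κ := by
        rw [injective_iff_map_eq_one]
        intro z hz
        obtain ⟨g, rfl⟩ := QuotientGroup.mk'_surjective _ z
        have h2 : (g : Γ) ∈ N := (QuotientGroup.eq_one_iff _).1 hz
        exact (QuotientGroup.eq_one_iff _).2 h2
      have hcon : ∀ k : ℤ, q x * c ^ k * (q x)⁻¹ = κ (QuotientGroup.mk' N' (a ^ k)) := by
        intro k
        change _ = q ((a ^ k : D i) : Γ)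
        rw [Subgroup.coe_zpow, map_zpow, ← hcx, map_mul, map_mul, map_inv]
        have h2 : ∀ X A : Γ ⧸ N, X * (X⁻¹ * A * X) ^ k * X⁻¹ = A ^ k := by
          intro X A
          have h3 : (X⁻¹ * A * X) ^ k = X⁻¹ * A ^ k * X := by
            have := conj_zpow (i := k) (a := X⁻¹) (b := A)
            rwa [inv_inv] at this
          rw [h3]
          group
        exact h2 _ _
      have hmem : ∀ c' : C, q x * (c' : Γ ⧸ N) * (q x)⁻¹ ∈ κ.range := by
        intro c'
        have h2 : (c' : Γ ⧸ N) ∈ zpowers c := by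
          rw [hc]
          exact c'.2
        obtain ⟨k, hk⟩ := Subgroup.mem_zpowers_iff.1 h2
        rw [← hk, hcon]
        exact ⟨_, rfl⟩
      let θ : C →* κ.range := ((MulAut.conj (q x)).toMonoidHom.comp C.subtype).codRestrict
        κ.range hmem
      let e := MonoidHom.ofInjective hκ
      have h3 := vch_comp (e.symm.toMonoidHom.comp θ) hη
      refine cast (congrArg (· ∈ Vch C) ?_) h3
      funext c'
      have h2 : (c' : Γ ⧸ N) ∈ zpowers c := by
        rw [hc]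
        exact c'.2
      obtain ⟨k, hk⟩ := Subgroup.mem_zpowers_iff.1 h2
      have h4 : e.symm (θ c') = QuotientGroup.mk' N' (a ^ k) := by
        rw [MulEquiv.symm_apply_eq]
        apply Subtype.ext
        change q x * (c' : Γ ⧸ N) * (q x)⁻¹ = κ (QuotientGroup.mk' N' (a ^ k))
        rw [← hk, hcon]
      change η (e.symm (θ c')) = f c'
      rw [h4, ← hφη, ← hk, ← hcx, ← map_zpow]
      have h5 : (x⁻¹ * (a : Γ) * x) ^ k = x⁻¹ * ((a ^ k : D i) : Γ) * x := by
        have := conj_zpow (i := k) (a := x⁻¹) (b := (a : Γ))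
        rw [inv_inv] at this
        rw [this, Subgroup.coe_zpow]
      rw [h5, hfv]
    · left
      intro c hc
      exact hfz c fun h => hgen ⟨c, hc, h⟩)
  refine ⟨m, hm, _, rchar_of_vch hN.2.1 h1, fun i g => ?_, fun g => ?_⟩
  · change (m • f) (q g) = _
    rw [Pi.smul_apply]
    have h2 := hfv i g 1
    rw [inv_one, one_mul, mul_one] at h2
    rw [h2]
  · change (m • f) (q g) = 0 ∨ ∃ (i : ι) (a : D i), (m • f) (q g) = _
    rw [Pi.smul_apply]
    by_cases h : P (q g)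
    · obtain ⟨⟨i, a, x⟩, hx⟩ := h
      right
      refine ⟨i, a, ?_⟩
      change q (x⁻¹ * a * x) = q g at hx
      rw [← hx, hfv]
    · left
      rw [hfz _ h, smul_zero]


end

end Pool.Agent.Q20.TR
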