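import Pool.Agent.Q20.LG.Terms
import Pool.Agent.Q20.LG.Surj
import Pool.Agent.Q20.LG.Ratl
import Pool.Agent.Q20.LG.Mack

/-!
# The criterion for characters of class groups modulo the primes above a finite set
-/

set_option autoImplicit false
set_option linter.unusedSectionVars false

namespace Pool.Agent.Q20.TR

open NumberField IsDedekindDomain Pool.Agent.Q273.SP Pool.Agent.Q246.RP
open Pool.Agent.Q20.LG
open Pool.Agent.Q246.BI (Smooth IsCharacter induced NN)
open Subgroup (zpowers)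
open scoped Classical

section
variable {K : Type} [Field K] [NumberField K]

/-- unramified at all finite places outside `T`, trivial on the decomposition groups above the
primes of `S` outside `T` -/
def UnrS (T : Set ℕ) (S : Finset ℕ) (F : IntermediateField K (AlgebraicClosure K))
    (ψ : F.fixingSubgroup →* ℂˣ) : Prop :=
  ∀ p : ℕ, p.Prime → p ∉ T → ∀ w : AlgebraicClosure K → ℝ, IsPl p w → ∀ g : F.fixingSubgroup,
    (Ine w (g : Gal(AlgebraicClosure K/K)) → ψ g = 1) ∧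
    (p ∈ S → Dec w (g : Gal(AlgebraicClosure K/K)) → ψ g = 1)

/-- the completions of `F'` at the places above the primes of `S` outside `T` contain those of
`L` -/
def Big (T : Set ℕ) (S : Finset ℕ) (L F' : IntermediateField K (AlgebraicClosure K)) : Prop :=
  ∀ p : ℕ, p.Prime → p ∉ T → p ∈ S → ∀ w : AlgebraicClosure K → ℝ, IsPl p w →
    ∀ g ∈ F'.fixingSubgroup, Dec w g → g ∈ L.fixingSubgroup

/-- characters induced from the linear characters of totally complex fields of degree divisible by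
`M`, with large completions above the primes of `S`, which are unramified outside `T` and trivial on
the decomposition groups above the primes of `S` outside `T`, and from trivial characters -/
def GenS (M : ℕ) (T : Set ℕ) (S : Finset ℕ) (L : IntermediateField K (AlgebraicClosure K)) (F : IntermediateField K (AlgebraicClosure K)) :
    Set (F.fixingSubgroup → ℂ) :=
  {f | ∃ (F' : IntermediateField K (AlgebraicClosure K)) (ψ : F'.fixingSubgroup →* ℂˣ),
    F ≤ F' ∧ FiniteDimensional K F' ∧ Smooth F' ψ ∧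
    ((IsEmpty (F' →+* ℝ) ∧ M ∣ Module.finrank K F' ∧ Big T S L F' ∧ UnrS T S F' ψ) ∨ ψ = 1) ∧
    f = induced F F' (fun g => ((ψ g : ℂˣ) : ℂ))}

/-- the local elements of the place `w` above `p` -/
def Loc (S : Finset ℕ) (p : ℕ) (w : AlgebraicClosure K → ℝ) (g : Gal(AlgebraicClosure K/K)) :
    Prop := Ine w g ∨ (p ∈ S ∧ Dec w g)

theorem Loc.dec {S : Finset ℕ} {p : ℕ} {w : AlgebraicClosure K → ℝ}
    {g : Gal(AlgebraicClosure K/K)} (h : Loc S p w g) : Dec w g := by
  rcases h with h | h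
  · exact h.1
  · exact h.2

theorem Loc.conj {S : Finset ℕ} {p : ℕ} {w : AlgebraicClosure K → ℝ}
    {g : Gal(AlgebraicClosure K/K)} (h : Loc S p w g) (x : Gal(AlgebraicClosure K/K)) :
    Loc S p (fun y => w (x y)) (x⁻¹ * g * x) := by
  rcases h with h | h
  · exact Or.inl (Ine.conj h x)
  · exact Or.inr ⟨h.1, Dec.conj h.2 x⟩

/-- the local elements -/
def TS (T : Set ℕ) (S : Finset ℕ) (F : IntermediateField K (AlgebraicClosure K)) :
    Set F.fixingSubgroup :=
  {g | g = 1 ∨ ∃ i : {z : ℕ × (AlgebraicClosure K → ℝ) // z.1.Prime ∧ z.1 ∉ T ∧ IsPl z.1 z.2},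
    Loc S i.1.1 i.1.2 (g : Gal(AlgebraicClosure K/K))}

/-- the elements of the decomposition groups above a finite set of primes -/
theorem isClosed_exists_dec {T : Finset ℕ} (hT : ∀ p ∈ T, p.Prime) :
    IsClosed {g : Gal(AlgebraicClosure K/K) | ∃ w ∈ PL (K := K) T, Dec w g} := by
  have h0 : IsClosed {z : Gal(AlgebraicClosure K/K) × (AlgebraicClosure K → ℝ) |
      z.2 ∈ PL T ∧ Dec z.2 z.1} := by
    have h1 : {z : Gal(AlgebraicClosure K/K) × (AlgebraicClosure K → ℝ) |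
        z.2 ∈ PL T ∧ Dec z.2 z.1} = ⋂ x, {z | z.2 ∈ PL T ∧ z.2 (z.1 x) = z.2 x} := by
      ext z
      simp only [Set.mem_ofPred_eq, Set.mem_iInter, Dec]
      exact ⟨fun h x => ⟨h.1, h.2 x⟩, fun h => ⟨(h 0).1, fun x => (h x).2⟩⟩
    rw [h1]
    refine isClosed_iInter fun x => ?_
    have h2 : {z : Gal(AlgebraicClosure K/K) × (AlgebraicClosure K → ℝ) |
        z.2 ∈ PL T ∧ z.2 (z.1 x) = z.2 x} = ⋃ y ∈ (minpoly K x).rootSet (AlgebraicClosure K),
        ({z | z.1 x = y} ∩ {z | z.2 ∈ PL T ∧ z.2 y = z.2 x}) := by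
      have hx : IsIntegral K x := Algebra.IsIntegral.isIntegral x
      ext z
      simp only [Set.mem_ofPred_eq, Set.mem_iUnion, Set.mem_inter_iff, exists_prop]
      constructor
      · rintro ⟨h1, h2⟩
        refine ⟨z.1 x, ?_, rfl, h1, h2⟩
        rw [Polynomial.mem_rootSet]
        refine ⟨minpoly.ne_zero hx, ?_⟩
        rw [← minpoly.algEquiv_eq z.1 x]
        exact minpoly.aeval K _
      · rintro ⟨y, -, h1, h2, h3⟩
        rw [h1]
        exact ⟨h2, h3⟩
    rw [h2]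
    refine ((minpoly K x).rootSet_finite (AlgebraicClosure K)).isClosed_biUnion
      fun y _ => IsClosed.inter ?_ ?_
    · exact (isClopen_eval x fun z => z = y).1.preimage continuous_fst
    · refine IsClosed.preimage continuous_snd (t := {w : AlgebraicClosure K → ℝ |
        w ∈ PL T ∧ w y = w x}) ?_
      exact (isCompact_pl hT).isClosed.inter
        (isClosed_eq (continuous_apply y) (continuous_apply x))
  have h1 : IsCompact {z : Gal(AlgebraicClosure K/K) × (AlgebraicClosure K → ℝ) |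
      z.2 ∈ PL T ∧ Dec z.2 z.1} := by
    refine IsCompact.of_isClosed_subset (isCompact_univ.prod (isCompact_pl hT)) h0 ?_
    exact fun z hz => ⟨trivial, hz.1⟩
  have h2 : {g : Gal(AlgebraicClosure K/K) | ∃ w ∈ PL (K := K) T, Dec w g} = Prod.fst ''
      {z : Gal(AlgebraicClosure K/K) × (AlgebraicClosure K → ℝ) | z.2 ∈ PL T ∧ Dec z.2 z.1} := by
    ext g
    constructor
    · rintro ⟨w, hw, hg⟩
      exact ⟨(g, w), ⟨hw, hg⟩, rfl⟩
    · rintro ⟨⟨g, w⟩, ⟨hw, hg⟩, rfl⟩
      exact ⟨w, hw, hg⟩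
  rw [h2]
  exact (h1.image continuous_fst).isClosed

theorem isClosed_ts (T : Set ℕ) (S : Finset ℕ) (F : IntermediateField K (AlgebraicClosure K)) :
    IsClosed (TS T S F) := by
  have h1 := isClosed_tt T F
  have h2 := (isClosed_exists_dec (K := K) (T := S.filter fun p => p.Prime ∧ p ∉ T)
    (fun p hp => (Finset.mem_filter.1 hp).2.1)).preimage
    (continuous_subtype_val (p := fun g => g ∈ F.fixingSubgroup))
  refine cast (congrArg IsClosed ?_) (h1.union h2)
  ext g
  constructor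
  · rintro ((h | ⟨⟨⟨p, w⟩, hp, hpT, hw⟩, h⟩) | ⟨w, ⟨p, hp, hw⟩, h⟩)
    · exact Or.inl h
    · exact Or.inr ⟨⟨(p, w), hp, hpT, hw⟩, Or.inl h⟩
    · exact Or.inr ⟨⟨(p, w), (Finset.mem_filter.1 hp).2.1, (Finset.mem_filter.1 hp).2.2, hw⟩,
        Or.inr ⟨(Finset.mem_filter.1 hp).1, h⟩⟩
  · rintro (h | ⟨⟨⟨p, w⟩, hp, hpT, hw⟩, (h | ⟨hpS, h⟩)⟩)
    · exact Or.inl (Or.inl h)
    · exact Or.inl (Or.inr ⟨⟨(p, w), hp, hpT, hw⟩, h⟩)
    · exact Or.inr ⟨w, ⟨p, Finset.mem_filter.2 ⟨hpS, hp, hpT⟩, hw⟩, h⟩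

theorem ts_conj (T : Set ℕ) (S : Finset ℕ) (F : IntermediateField K (AlgebraicClosure K)) :
    ∀ t ∈ TS T S F, ∀ x : F.fixingSubgroup, x⁻¹ * t * x ∈ TS T S F := by
  rintro t (h | ⟨⟨⟨p, w⟩, hp, hpT, hw⟩, h⟩) x
  · left
    rw [h]
    group
  · exact Or.inr ⟨⟨(p, fun y => w ((x : Gal(AlgebraicClosure K/K)) y)), hp, hpT, hw.comp _⟩,
      h.conj (x : Gal(AlgebraicClosure K/K))⟩

theorem dec_pow {w : AlgebraicClosure K → ℝ} {g : Gal(AlgebraicClosure K/K)} (hg : Dec w g)
    (k : ℕ) : Dec w (g ^ k) := by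
  induction k with
  | zero => rw [pow_zero]; exact fun _ => rfl
  | succ k ih => rw [pow_succ]; exact Dec.mul ih hg

theorem ts_pow (T : Set ℕ) (S : Finset ℕ) (F : IntermediateField K (AlgebraicClosure K)) :
    ∀ t ∈ TS T S F, ∀ k : ℕ, t ^ k ∈ TS T S F := by
  rintro t (h | ⟨⟨⟨p, w⟩, hp, hpT, hw⟩, (h | ⟨hpS, h⟩)⟩) k
  · left
    rw [h, one_pow]
  · exact Or.inr ⟨⟨(p, w), hp, hpT, hw⟩, Or.inl (by rw [Subgroup.coe_pow]; exact ine_pow hw h k)⟩
  · exact Or.inr ⟨⟨(p, w), hp, hpT, hw⟩, Or.inr ⟨hpS, by rw [Subgroup.coe_pow]; exact dec_pow h k⟩⟩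

/-- the local form of the condition -/
def LocS (T : Set ℕ) (S : Finset ℕ) (F : IntermediateField K (AlgebraicClosure K))
    (f : F.fixingSubgroup → ℂ) : Prop :=
  ∀ p : ℕ, p.Prime → p ∉ T → ∀ w : AlgebraicClosure K → ℝ, IsPl p w → ∀ u v : F.fixingSubgroup,
    Dec w (u : Gal(AlgebraicClosure K/K)) → Dec w (v : Gal(AlgebraicClosure K/K)) → Same u v →
    Loc S p w ((u⁻¹ * v : F.fixingSubgroup) : Gal(AlgebraicClosure K/K)) → f u = f v

theorem locS_cond (T : Set ℕ) (S : Finset ℕ) (F : IntermediateField K (AlgebraicClosure K))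
    (f : F.fixingSubgroup → ℂ) : Cond (TS T S F) f ↔ LocS T S F f := by
  let ι := {z : ℕ × (AlgebraicClosure K → ℝ) // z.1.Prime ∧ z.1 ∉ T ∧ IsPl z.1 z.2}
  have h1 := cond_local (fun i : ι => decF F i.1.2)
    (fun i => {g : F.fixingSubgroup | Loc S i.1.1 i.1.2 (g : Gal(AlgebraicClosure K/K))})
    (fun i t ht => Loc.dec ht)
    (fun i t ht ht1 u hu => dec_of_mem i.2.1 i.2.2.2 (Loc.dec ht)
      (fun h => ht1 (Subtype.ext h)) (congrArg Subtype.val hu)) f
  constructor
  · intro h p hp hpT w hw u v hu hv huv ht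
    exact h1.1 h ⟨(p, w), hp, hpT, hw⟩ ⟨u, hu⟩ ⟨v, hv⟩
      ((same_sub (Δ := decF F w) ⟨u, hu⟩ ⟨v, hv⟩).2 huv) ht
  · intro h
    exact h1.2 fun i u v huv ht => h i.1.1 i.2.1 i.2.2.1 i.1.2 i.2.2.2 u v u.2 v.2 ((same_sub u v).1 huv) ht

/-- the condition gives the strong form -/
theorem cond_genS {M : ℕ} (hM : 0 < M) (T : Set ℕ) (S : Finset ℕ)
    (L₀ : IntermediateField K (AlgebraicClosure K)) [FiniteDimensional K L₀]
    (F : IntermediateField K (AlgebraicClosure K)) [FiniteDimensional K F]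
    {f : F.fixingSubgroup → ℂ} (hf : f ∈ RChar F.fixingSubgroup)
    (hloc : LocS T S F f) : ∃ m : ℕ, 0 < m ∧ m • f ∈ AddSubgroup.closure (GenS M T S L₀ F) := by
  have h := (locS_cond T S F f).2 hloc
  let L₁ : IntermediateField K (AlgebraicClosure K) :=
    IntermediateField.normalClosure K L₀ (AlgebraicClosure K)
  have hL₁n : Normal K L₁ := inferInstance
  have hL₀L₁ : L₀ ≤ L₁ := IntermediateField.le_normalClosure L₀
  let 𝒮 : Set F.fixingSubgroup := CC F ∪ {g | (∃ w ∈ PL (K := K) (S.filter fun p => p.Prime ∧ p ∉ T),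
    Dec w (g : Gal(AlgebraicClosure K/K))) ∧ g ∉ NN F L₁}
  have hSc : IsClosed 𝒮 := by
    refine (isClosed_ccs F).union (IsClosed.inter ?_ (isOpen_sub F L₁).isClosed_compl)
    exact (isClosed_exists_dec (K := K) (T := S.filter fun p => p.Prime ∧ p ∉ T)
      (fun p hp => (Finset.mem_filter.1 hp).2.1)).preimage continuous_subtype_val
  have hSconj : ∀ s ∈ 𝒮, ∀ x : F.fixingSubgroup, x⁻¹ * s * x ∈ 𝒮 := by
    rintro s (hs | ⟨⟨w, ⟨p, hp, hw⟩, hs⟩, hsN⟩) x
    · exact Or.inl (cc_conj F s hs x)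
    · refine Or.inr ⟨⟨fun y => w ((x : Gal(AlgebraicClosure K/K)) y), ⟨p, hp, hw.comp _⟩,
        Dec.conj hs (x : Gal(AlgebraicClosure K/K))⟩, fun h1 => hsN ?_⟩
      have hn : (NN F L₁).Normal := inferInstance
      have h2 := hn.conj_mem _ h1 x
      have h3 : x * (x⁻¹ * s * x) * x⁻¹ = s := by group
      rwa [h3] at h2
  have hSsame : ∀ u v : F.fixingSubgroup, Same u v →
      (∃ s ∈ 𝒮, s ∈ closure (zpowers u : Set F.fixingSubgroup)) → f u = f v := by
    rintro u v huv ⟨s, (hs | ⟨⟨w, ⟨p, hp, hw⟩, hs⟩, hsN⟩), hsu⟩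
    · rw [cc_same F huv ⟨s, hs, hsu⟩]
    · obtain ⟨hpS, hp1, hpT⟩ := Finset.mem_filter.1 hp
      have hs1 : s ≠ 1 := fun h1 => hsN (h1 ▸ (NN F L₁).one_mem)
      have hcomm : u * s = s * u := by
        have h1 : closure (zpowers u : Set F.fixingSubgroup) ⊆ {y | u * y = y * u} := by
          refine closure_minimal ?_ (isClosed_eq (continuous_const_mul u)
            (continuous_mul_const u))
          intro y hy
          obtain ⟨k, rfl⟩ := Subgroup.mem_zpowers_iff.1 hy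
          exact ((Commute.refl u).zpow_right k).eq
        exact h1 hsu
      have hu : u ∈ decF F w := dec_of_mem hp1 hw hs (fun h1 => hs1 (Subtype.ext h1))
        (congrArg Subtype.val hcomm)
      have hv : v ∈ decF F w := mem_of_same
        ((isClosed_dec w).preimage continuous_subtype_val) huv hu
      refine hloc p hp1 hpT w hw u v hu hv huv (Or.inr ⟨hpS, ?_⟩)
      exact (decF F w).mul_mem ((decF F w).inv_mem hu) hv
  obtain ⟨L₂, hL₂, hdeg⟩ := Pool.Agent.Q246.BI.exists_deg (K := K) hM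
  let L : IntermediateField K (AlgebraicClosure K) :=
    IntermediateField.normalClosure K L₂ (AlgebraicClosure K)
  have hLfd : FiniteDimensional K L := inferInstance
  have hLn : Normal K L := inferInstance
  have hL₂L : L₂ ≤ L := IntermediateField.le_normalClosure L₂
  have h₀ : Lv (NN F L) (NN F L) := ⟨inferInstance, isOpen_sub F L, le_rfl⟩
  obtain ⟨N, hN, m, hm, h1⟩ := profinite_main (isClosed_ts T S F) hSc (ts_conj T S F)
    (ts_pow T S F) hSconj hf h hSsame h₀
  refine ⟨m, hm, AddSubgroup.closure_mono ?_ h1⟩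
  rintro _ ⟨H, ψ, hNH, ⟨u, hu⟩, hψN, hψ, rfl⟩
  obtain ⟨F', ψ', hFF', hfd, hs, hiff, hval, hind⟩ := exists_fld F H
    (Subgroup.isOpen_mono hNH hN.2.1) ψ hN.2.1 hψN
  have hmem : ∀ g : Gal(AlgebraicClosure K/K), g ∈ F'.fixingSubgroup →
      ∃ h1 : g ∈ F.fixingSubgroup, (⟨g, h1⟩ : F.fixingSubgroup) ∈ H := by
    intro g hg
    have h2 := IntermediateField.fixingSubgroup_antitone hFF' hg
    exact ⟨h2, (hiff ⟨g, h2⟩).2 hg⟩
  refine ⟨F', ψ', hFF', hfd, hs, ?_, hind.symm⟩
  rcases hψ with rfl | ⟨hψ1, hψ2⟩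
  · right
    ext g
    obtain ⟨h2, h3⟩ := hmem g g.2
    rw [hval g h2 h3]
    rfl
  · left
    refine ⟨?_, ?_, ?_, ?_⟩
    · by_contra hne
      rw [not_isEmpty_iff] at hne
      obtain ⟨t, ht, htF⟩ := Pool.Agent.Q246.BI.real_cc F' hne
      obtain ⟨h2, h3⟩ := hmem t ((IntermediateField.mem_fixingSubgroup_iff _ _).2 htF)
      exact hψ1 ⟨t, h2⟩ (Or.inl ht) h3
    · obtain ⟨F₁, hF₁, hσ, hfdF₁, hM₁⟩ := hdeg (u : Gal(AlgebraicClosure K/K))
      have hF₁L : F₁ ≤ L := hF₁.trans hL₂L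
      have hle₁ : F'.fixingSubgroup ≤ F₁.fixingSubgroup := by
        intro g hg
        obtain ⟨h2, h3⟩ := hmem g hg
        obtain ⟨k, hk⟩ := hu _ h3
        have h4 := hN.2.2 hk
        rw [Pool.Agent.Q246.BI.mem_nn] at h4
        rw [IntermediateField.mem_fixingSubgroup_iff]
        intro x hx
        have h5 := h4 x (hF₁L hx)
        change ((u ^ k : F.fixingSubgroup) : Gal(AlgebraicClosure K/K)).symm (g x) = x at h5
        rw [AlgEquiv.symm_apply_eq] at h5
        change g x = x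
        rw [h5, Subgroup.coe_zpow]
        have h6 : (u : Gal(AlgebraicClosure K/K)) ∈
          MulAction.stabilizer (Gal(AlgebraicClosure K/K)) x := hσ x hx
        exact Subgroup.zpow_mem _ h6 k
      have hle₂ : F₁ ≤ F' := by
        have h2 : IntermediateField.fixedField F₁.fixingSubgroup ≤
            IntermediateField.fixedField F'.fixingSubgroup := by
          intro x hx
          rw [IntermediateField.mem_fixedField_iff] at hx ⊢
          exact fun g hg => hx g (hle₁ hg)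
        rwa [InfiniteGalois.fixedField_fixingSubgroup, InfiniteGalois.fixedField_fixingSubgroup] at h2
      exact hM₁.trans (IntermediateField.finrank_dvd_of_le_right hle₂)
    · intro p hp hpT hpS w hw g hg hgw
      obtain ⟨h2, h3⟩ := hmem g hg
      have h4 : (⟨g, h2⟩ : F.fixingSubgroup) ∈ NN F L₁ := by
        by_contra h5
        exact hψ1 ⟨g, h2⟩ (Or.inr ⟨⟨w, ⟨p, Finset.mem_filter.2 ⟨hpS, hp, hpT⟩, hw⟩, hgw⟩, h5⟩) h3
      rw [Pool.Agent.Q246.BI.mem_nn] at h4
      rw [IntermediateField.mem_fixingSubgroup_iff]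
      exact fun x hx => h4 x (hL₀L₁ hx)
    · intro p hp hpT w hw g
      obtain ⟨h2, h3⟩ := hmem g g.2
      rw [hval g h2 h3]
      exact ⟨fun hg => hψ2 _ (Or.inr ⟨⟨(p, w), hp, hpT, hw⟩, Or.inl hg⟩),
        fun hpS hg => hψ2 _ (Or.inr ⟨⟨(p, w), hp, hpT, hw⟩, Or.inr ⟨hpS, hg⟩⟩)⟩

/-- one place above each prime is enough -/
theorem locS_chosen (T : Set ℕ) (S : Finset ℕ) (F : IntermediateField K (AlgebraicClosure K))
    [FiniteDimensional K F] {w : HeightOneSpectrum (𝓞 F) → (AlgebraicClosure K → ℝ)}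
    (hw : ∀ v, Above F v (w v)) {f : F.fixingSubgroup → ℂ} (hf : f ∈ RChar F.fixingSubgroup)
    (h : ∀ v (p : ℕ), p.Prime → p ∉ T → IsPl p (w v) → ∀ a b : decF F (w v), Same a b →
      Loc S p (w v) (((a⁻¹ * b : decF F (w v)) : F.fixingSubgroup) : Gal(AlgebraicClosure K/K)) →
        f a = f b) : LocS T S F f := by
  intro p hp hpT w' hw' a b ha hb hab ht
  obtain ⟨v, hv, -⟩ := exists_above F hp hw'
  obtain ⟨g, rfl⟩ := transitive F v (hw v) hv
  have hpl : IsPl p (w v) := by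
    have h1 := hw'.comp (g⁻¹ : F.fixingSubgroup)
    have h2 : (fun x => (fun x => w v ((g : Gal(AlgebraicClosure K/K)) x))
        ((((g⁻¹ : F.fixingSubgroup) : Gal(AlgebraicClosure K/K))) x)) = w v := by
      funext x
      change w v ((g : Gal(AlgebraicClosure K/K)) ((g : Gal(AlgebraicClosure K/K))⁻¹ x)) = w v x
      congr 1
      exact AlgEquiv.apply_symm_apply _ x
    rwa [h2] at h1
  have hdec : ∀ z : F.fixingSubgroup, Dec (fun x => w v ((g : Gal(AlgebraicClosure K/K)) x))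
      (z : Gal(AlgebraicClosure K/K)) → g * z * g⁻¹ ∈ decF F (w v) := by
    intro z hz x
    have h1 := hz ((g : Gal(AlgebraicClosure K/K))⁻¹ x)
    change w v ((g : Gal(AlgebraicClosure K/K)) ((z : Gal(AlgebraicClosure K/K))
      ((g : Gal(AlgebraicClosure K/K))⁻¹ x))) = w v ((g : Gal(AlgebraicClosure K/K))
      ((g : Gal(AlgebraicClosure K/K))⁻¹ x)) at h1
    have h2 : (g : Gal(AlgebraicClosure K/K)) ((g : Gal(AlgebraicClosure K/K))⁻¹ x) = x :=
      AlgEquiv.apply_symm_apply _ x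
    rw [h2] at h1
    exact h1
  have h3 := h v p hp hpT hpl ⟨_, hdec a ha⟩ ⟨_, hdec b hb⟩
    ((same_sub (Δ := decF F (w v)) ⟨_, hdec a ha⟩ ⟨_, hdec b hb⟩).2 (same_conj g hab)) (by
      have h4 := ht.conj ((g : Gal(AlgebraicClosure K/K))⁻¹)
      have h5 : (fun y => (fun x => w v ((g : Gal(AlgebraicClosure K/K)) x))
          ((g : Gal(AlgebraicClosure K/K))⁻¹ y)) = w v := by
        funext x
        change w v ((g : Gal(AlgebraicClosure K/K)) ((g : Gal(AlgebraicClosure K/K))⁻¹ x)) = w v x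
        congr 1
        exact AlgEquiv.apply_symm_apply _ x
      rw [h5, inv_inv] at h4
      change Loc S p (w v) (((g * a * g⁻¹)⁻¹ * (g * b * g⁻¹) : F.fixingSubgroup) :
        Gal(AlgebraicClosure K/K))
      have h6 : (g * a * g⁻¹)⁻¹ * (g * b * g⁻¹) = g * (a⁻¹ * b) * g⁻¹ := by group
      rw [h6]
      exact h4)
  change f (g * a * g⁻¹) = f (g * b * g⁻¹) at h3
  rw [rchar_conj hf, rchar_conj hf] at h3
  exact h3

end

end Pool.Agent.Q20.TR
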