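import Pool.Agent.Q20.TR.Rts

/-!
# Density of the maximal totally real extension and F. K. Schmidt's theorem for it
-/

set_option autoImplicit false
set_option linter.unusedSectionVars false

namespace Pool.Agent.Q20.TR

open NumberField Polynomial Pool.Agent.Q273.SP

section
variable {Ω : Type} [Field Ω] {p q : ℕ} {w u : Ω → ℝ}

/-- large integers which are close to `1` at `w` and units at `w` and `u` -/
theorem exists_nat (hp : p.Prime) (hq : q.Prime) (hw : IsPl p w) (hu : IsPl q u) (N₀ : ℕ) {δ : ℝ}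
    (hδ : 0 < δ) : ∃ N : ℕ, N₀ ≤ N ∧ w (N : Ω) = 1 ∧ u (N : Ω) = 1 ∧ w (1 - (N : Ω)⁻¹) < δ := by
  obtain ⟨k₁, hk₁⟩ := exists_pow_lt_of_lt_one hδ (hw.p_lt hp)
  let k := k₁ + N₀ + 1
  have hk0 : k ≠ 0 := Nat.succ_ne_zero _
  have key : ∀ {r : ℕ} {v : Ω → ℝ}, r.Prime → IsPl r v → r ∣ p * q →
      v ((1 + (p * q) ^ k : ℕ) : Ω) = 1 := by
    intro r v hr hv hd
    have h1 : ¬ (r : ℤ) ∣ ((1 + (p * q) ^ k : ℕ) : ℤ) := by
      rw [Int.natCast_dvd_natCast]
      intro h
      have h2 : r ∣ (p * q) ^ k := hd.trans (dvd_pow_self _ hk0)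
      exact hr.one_lt.ne' (Nat.dvd_one.1 ((Nat.dvd_add_left h2).1 h))
    have h2 := hv.int_coprime hr h1
    rwa [Int.cast_natCast] at h2
  have hwN := key hp hw (Dvd.intro _ rfl)
  have huN := key hq hu (Dvd.intro_left _ rfl)
  refine ⟨1 + (p * q) ^ k, ?_, hwN, huN, ?_⟩
  · have h1 : 1 < p * q := by
      have h2 := hp.two_le
      have h3 := hq.two_le
      nlinarith
    have h2 : k < (p * q) ^ k := Nat.lt_pow_self h1
    have h3 : N₀ ≤ k := by change N₀ ≤ k₁ + N₀ + 1; omega
    omega
  · have hne : ((1 + (p * q) ^ k : ℕ) : Ω) ≠ 0 := by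
      intro h
      rw [h, hw.zero] at hwN
      exact zero_ne_one hwN
    have h1 : (1 - (((1 + (p * q) ^ k : ℕ) : Ω))⁻¹) =
        ((p : Ω) ^ k * (q : Ω) ^ k) / (((1 + (p * q) ^ k : ℕ) : Ω)) := by
      rw [eq_div_iff hne, sub_mul, inv_mul_cancel₀ hne]
      push_cast
      ring
    rw [h1, hw.div hp, hwN, div_one, hw.mul, hw.pow hp, hw.pow hp]
    have h2 : w (p : Ω) ^ k ≤ w (p : Ω) ^ k₁ :=
      pow_le_pow_of_le_one (hw.nonneg _) (hw.p_lt hp).le (by change k₁ ≤ k₁ + N₀ + 1; omega)
    have h3 : w (q : Ω) ^ k ≤ 1 := pow_le_one₀ (hw.nonneg _) (hw.nat_le hp q)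
    calc w (p : Ω) ^ k * w (q : Ω) ^ k ≤ w (p : Ω) ^ k * 1 :=
          mul_le_mul_of_nonneg_left h3 (pow_nonneg (hw.nonneg _) _)
      _ ≤ w (p : Ω) ^ k₁ := by rw [mul_one]; exact h2
      _ < δ := hk₁

/-- the radius which separates the first integers -/
theorem exists_radius (hp : p.Prime) (hw : IsPl p w) (n : ℕ) : ∃ ε : ℝ, 0 < ε ∧
    ∀ i < n, ∀ j < n, i ≠ j → ε ≤ w ((i : Ω) - j) := by
  have hz : ∀ i j : ℕ, i ≠ j → 0 < w ((i : Ω) - j) := by
    intro i j hij
    refine hw.pos hp fun h => ?_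
    have hd : ((i : ℤ) - j) ≠ 0 := sub_ne_zero.2 (by exact_mod_cast hij)
    have h1 : (((i : ℤ) - j : ℤ) : Ω) = 0 := by push_cast; exact h
    have hf : FiniteMultiplicity (p : ℤ) ((i : ℤ) - j) := by
      rw [Int.finiteMultiplicity_iff]
      refine ⟨?_, hd⟩
      rw [Int.natAbs_natCast]
      exact hp.one_lt.ne'
    obtain ⟨c, hc, hpc⟩ := hf.exists_eq_pow_mul_and_not_dvd
    rw [hc, Int.cast_mul, Int.cast_pow, Int.cast_natCast] at h1
    have h2 := congrArg w h1
    rw [hw.mul, hw.pow hp, hw.prime, hw.int_coprime hp hpc, mul_one, hw.zero] at h2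
    have h3 : (0 : ℝ) < (p : ℝ)⁻¹ := inv_pos.2 (by exact_mod_cast hp.pos)
    exact absurd h2 (pow_pos h3 _).ne'
  let s : Finset (ℕ × ℕ) := (Finset.range n ×ˢ Finset.range n).filter fun z => z.1 ≠ z.2
  by_cases hs : s.Nonempty
  · obtain ⟨z, hz1, hz2⟩ := s.exists_min_image (fun z => w ((z.1 : Ω) - z.2)) hs
    refine ⟨w ((z.1 : Ω) - z.2), hz _ _ (Finset.mem_filter.1 hz1).2, fun i hi j hj hij => ?_⟩
    exact hz2 (i, j) (Finset.mem_filter.2 ⟨Finset.mem_product.2 ⟨Finset.mem_range.2 hi,
      Finset.mem_range.2 hj⟩, hij⟩)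
  · refine ⟨1, one_pos, fun i hi j hj hij => (hs ⟨(i, j), ?_⟩).elim⟩
    exact Finset.mem_filter.2 ⟨Finset.mem_product.2 ⟨Finset.mem_range.2 hi,
      Finset.mem_range.2 hj⟩, hij⟩

end

section
variable {K : Type} [Field K] [NumberField K] [IsTotallyReal K]

/-- the restriction of a place to the maximal totally real extension -/
noncomputable def rst (w : AlgebraicClosure K → ℝ) : treal K → ℝ := fun x => w x

theorem rst_pl {p : ℕ} {w : AlgebraicClosure K → ℝ} (hw : IsPl p w) : IsPl p (rst w) where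
  nonneg x := hw.nonneg _
  zero := by
    change w ((0 : treal K) : AlgebraicClosure K) = 0
    rw [ZeroMemClass.coe_zero, hw.zero]
  mul x y := by
    change w ((x * y : treal K) : AlgebraicClosure K) = _
    rw [MulMemClass.coe_mul, hw.mul]
    rfl
  add x y := by
    change w ((x + y : treal K) : AlgebraicClosure K) ≤ _
    rw [AddMemClass.coe_add]
    exact hw.add _ _
  prime := by
    change w (((p : treal K)) : AlgebraicClosure K) = _
    have h1 : ((p : treal K) : AlgebraicClosure K) = p := map_natCast (treal K).val p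
    rw [h1]
    exact hw.prime

/-- near roots in the maximal totally real extension -/
theorem near_tr {p : ℕ} (hp : p.Prime) {w : AlgebraicClosure K → ℝ} (hw : IsPl p w)
    {g : Polynomial (treal K)} (hg : g.Monic) {n : ℕ} (hn : g.natDegree = n)
    (hroots : ∀ γ : AlgebraicClosure K,
      (g.map (algebraMap (treal K) (AlgebraicClosure K))).eval γ = 0 → γ ∈ treal K)
    {x : treal K} {ε : ℝ} (hε : 0 < ε) (h : rst w (g.eval x) < ε ^ n) :
    ∃ γ : treal K, g.eval γ = 0 ∧ rst w (x - γ) < ε := by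
  have hinj : Function.Injective (algebraMap (treal K) (AlgebraicClosure K)) :=
    (algebraMap (treal K) (AlgebraicClosure K)).injective
  obtain ⟨γ, h1, h2⟩ := near_root hp hw (hg.map (algebraMap (treal K) (AlgebraicClosure K)))
    (n := n) (by rw [hg.natDegree_map, hn]) (x := (x : AlgebraicClosure K)) hε (by
      have h3 : (g.map (algebraMap (treal K) (AlgebraicClosure K))).eval
          (x : AlgebraicClosure K) = ((g.eval x : treal K) : AlgebraicClosure K) := by
        have h4 := Polynomial.eval_map_apply (algebraMap (treal K) (AlgebraicClosure K)) (p := g) x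
        exact h4
      rw [h3]
      exact h)
  refine ⟨⟨γ, hroots γ h1⟩, ?_, h2⟩
  apply hinj
  rw [map_zero, ← h1]
  exact (Polynomial.eval_map_apply (algebraMap (treal K) (AlgebraicClosure K)) (p := g)
    ⟨γ, hroots γ h1⟩).symm

/-- **The approximating polynomials.** -/
theorem exists_poly {n : ℕ} {Q : Polynomial (treal K)} (hQ : Q.degree < n) :
    ∃ N₀ : ℕ, ∀ N : ℕ, N₀ ≤ N →
      (h0 (treal K) n + C ((N : treal K)⁻¹) * Q).Monic ∧
      (h0 (treal K) n + C ((N : treal K)⁻¹) * Q).natDegree = n ∧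
      ∀ γ : AlgebraicClosure K, ((h0 (treal K) n + C ((N : treal K)⁻¹) * Q).map
        (algebraMap (treal K) (AlgebraicClosure K))).eval γ = 0 → γ ∈ treal K := by
  obtain ⟨N₀, hN₀⟩ := tr_roots (K := K) (n := n)
    (Q := Q.map (algebraMap (treal K) (AlgebraicClosure K)))
    (lt_of_le_of_lt degree_map_le hQ) (fun k => by
      rw [coeff_map]
      exact (Q.coeff k).2)
  refine ⟨N₀, fun N hN => ?_⟩
  have hdeg : (C ((N : treal K)⁻¹) * Q).degree < (h0 (treal K) n).degree := by
    rw [degree_eq_natDegree (h0_monic (treal K) n).ne_zero, h0_deg]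
    refine lt_of_le_of_lt ((degree_mul_le _ _).trans ?_) hQ
    calc (C ((N : treal K)⁻¹)).degree + Q.degree ≤ 0 + Q.degree :=
          add_le_add_left degree_C_le _
      _ = Q.degree := zero_add _
  refine ⟨(h0_monic (treal K) n).add_of_left hdeg, ?_, fun γ hγ => hN₀ N hN γ ?_⟩
  · rw [natDegree_add_eq_left_of_degree_lt hdeg, h0_deg]
  · rw [Polynomial.map_add, Polynomial.map_mul, h0_map, map_C, map_inv₀, map_natCast] at hγ
    exact hγ

/-- **Density.** -/
theorem dense {p : ℕ} (hp : p.Prime) {w : AlgebraicClosure K → ℝ} (hw : IsPl p w)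
    (β : AlgebraicClosure K) {ε : ℝ} (hε : 0 < ε) : ∃ γ ∈ treal K, w (β - γ) < ε := by
  have hint : IsIntegral K β := Algebra.IsIntegral.isIntegral β
  have hm := minpoly.monic hint
  set n := (minpoly K β).natDegree with hn
  let Q : (AlgebraicClosure K)[X] := (minpoly K β).map (algebraMap K (AlgebraicClosure K)) -
    h0 (AlgebraicClosure K) n
  have hQ' : Q = ((minpoly K β) - h0 K n).map (algebraMap K (AlgebraicClosure K)) := by
    rw [Polynomial.map_sub, h0_map]
  have hdeg : Q.degree < n := by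
    rw [hQ']
    refine lt_of_le_of_lt degree_map_le ?_
    have h1 : (minpoly K β).degree = (h0 K n).degree := by
      rw [degree_eq_natDegree hm.ne_zero, degree_eq_natDegree (h0_monic K n).ne_zero, h0_deg]
    have h2 := degree_sub_lt h1 hm.ne_zero (by rw [hm.leadingCoeff, (h0_monic K n).leadingCoeff])
    rwa [degree_eq_natDegree hm.ne_zero] at h2
  obtain ⟨N₀, hN₀⟩ := tr_roots (K := K) (n := n) (Q := Q) hdeg (fun k => by
    rw [hQ', coeff_map]
    exact (treal K).algebraMap_mem _)
  have hpos : 0 < ε ^ n / (1 + w ((h0 (AlgebraicClosure K) n).eval β)) :=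
    div_pos (pow_pos hε n) (by linarith [hw.nonneg ((h0 (AlgebraicClosure K) n).eval β)])
  obtain ⟨N, hN, hwN, -, hclose⟩ := exists_nat hp hp hw hw N₀ hpos
  have hdeg' : (C ((N : AlgebraicClosure K)⁻¹) * Q).degree < (h0 (AlgebraicClosure K) n).degree := by
    rw [degree_eq_natDegree (h0_monic _ n).ne_zero, h0_deg]
    refine lt_of_le_of_lt ((degree_mul_le _ _).trans ?_) hdeg
    calc (C ((N : AlgebraicClosure K)⁻¹)).degree + Q.degree ≤ 0 + Q.degree :=
          add_le_add_left degree_C_le _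
      _ = Q.degree := zero_add _
  obtain ⟨γ, h1, h2⟩ := near_root hp hw
    (g := h0 (AlgebraicClosure K) n + C ((N : AlgebraicClosure K)⁻¹) * Q)
    ((h0_monic _ n).add_of_left hdeg') (n := n)
    (by rw [natDegree_add_eq_left_of_degree_lt hdeg', h0_deg]) (x := β) hε (by
      have h3 : (h0 (AlgebraicClosure K) n + C ((N : AlgebraicClosure K)⁻¹) * Q).eval β =
          (1 - (N : AlgebraicClosure K)⁻¹) * (h0 (AlgebraicClosure K) n).eval β := by
        rw [eval_add, eval_mul, eval_C]
        have h4 : Q.eval β = - (h0 (AlgebraicClosure K) n).eval β := by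
          change ((minpoly K β).map (algebraMap K (AlgebraicClosure K)) - _).eval β = _
          rw [eval_sub, eval_map, ← aeval_def, minpoly.aeval, zero_sub]
        rw [h4]
        ring
      rw [h3, hw.mul]
      have h5 := hw.nonneg ((h0 (AlgebraicClosure K) n).eval β)
      rw [lt_div_iff₀ (by linarith)] at hclose
      refine lt_of_le_of_lt ?_ hclose
      exact mul_le_mul_of_nonneg_left (by linarith) (hw.nonneg _))
  exact ⟨γ, hN₀ N hN γ h1, h2⟩

/-- the decomposition groups act faithfully on the maximal totally real extension -/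
theorem dec_faithful {p : ℕ} (hp : p.Prime) {w : AlgebraicClosure K → ℝ} (hw : IsPl p w)
    {a b : Gal(AlgebraicClosure K/K)} (ha : ∀ x, w (a x) = w x) (hb : ∀ x, w (b x) = w x)
    (h : ∀ x ∈ treal K, a x = b x) : a = b := by
  apply AlgEquiv.ext
  intro x
  by_contra hne
  have h1 : 0 < w (a x - b x) := hw.pos hp (sub_ne_zero.2 hne)
  obtain ⟨γ, hγ, h2⟩ := dense hp hw x h1
  have h3 : a x - b x = a (x - γ) - b (x - γ) := by
    rw [map_sub, map_sub, h γ hγ]
    ring
  have h4 : w (a x - b x) < w (a x - b x) := by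
    nth_rewrite 1 [h3]
    refine lt_of_le_of_lt (hw.sub hp _ _) (max_lt ?_ ?_)
    · rw [ha]
      exact h2
    · rw [hb]
      exact h2
  exact lt_irrefl _ h4

/-- **F. K. Schmidt's theorem for the maximal totally real extension.** -/
theorem schmidt {p q : ℕ} (hp : p.Prime) (hq : q.Prime) {w u : AlgebraicClosure K → ℝ}
    (hw : IsPl p w) (hu : IsPl q u) {a b : Gal(AlgebraicClosure K/K)} (ha : ∀ x, w (a x) = w x)
    (hb : ∀ x, u (b x) = u x) (hab : ∀ x ∈ treal K, a x = b x)
    (hne : ∃ x ∈ treal K, a x ≠ x) : ∀ x ∈ treal K, w x = u x := by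
  classical
  have hW := rst_pl hw
  have hU := rst_pl hu
  let h : treal K →+* treal K := ((rho K a : treal K →ₐ[K] treal K) : treal K →+* treal K)
  have hval : ∀ x : treal K, ((h x : treal K) : AlgebraicClosure K) = a x := fun x => rho_apply a x
  have hhW : ∀ x, rst w (h x) = rst w x := fun x => by
    change w ((h x : treal K) : AlgebraicClosure K) = w x
    rw [hval, ha]
  have hhU : ∀ x, rst u (h x) = rst u x := fun x => by
    change u ((h x : treal K) : AlgebraicClosure K) = u x
    rw [hval, hab x x.2, hb]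
  have hit : ∀ (m : ℕ) (x : treal K), (((h^[m]) x : treal K) : AlgebraicClosure K) =
      ((a : AlgebraicClosure K → AlgebraicClosure K)^[m]) x := by
    intro m x
    induction m with
    | zero => rfl
    | succ m ih => rw [Function.iterate_succ_apply', Function.iterate_succ_apply', hval, ih]
  have hfin : ∀ x : treal K, ∃ m : ℕ, 0 < m ∧ (h^[m]) x = x := by
    intro x
    obtain ⟨m, hm, h1⟩ := finite_orbit a (x : AlgebraicClosure K)
    refine ⟨m, hm, Subtype.ext ?_⟩
    rw [hit, h1]
  suffices hsuf : rst w = rst u from fun x hx => congrFun hsuf ⟨x, hx⟩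
  by_contra hcon
  obtain ⟨e₀, he₀, hne₀⟩ : ∃ e ∈ fixed h, rst w e ≠ rst u e := by
    by_contra hc
    push Not at hc
    exact hcon (eq_of_fixed hp hq hW hU h hfin hhW hhU hc)
  obtain ⟨β₀, hβ₀, hβne⟩ := hne
  let β : treal K := ⟨β₀, hβ₀⟩
  have hβ : h β ≠ β := fun h1 => hβne (by
    rw [← hval β, h1])
  obtain ⟨n, hn, hnβ⟩ := hfin β
  -- the orbit polynomial
  let f : Polynomial (treal K) := ∏ i ∈ Finset.range n, (X - C ((h^[i]) β))
  have hfm : f.Monic := monic_prod_of_monic _ _ fun i _ => monic_X_sub_C _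
  have hfd : f.natDegree = n := by
    change (∏ i ∈ Finset.range n, (X - C ((h^[i]) β))).natDegree = n
    rw [natDegree_prod_of_monic _ _ fun i _ => monic_X_sub_C _]
    simp only [natDegree_X_sub_C, Finset.sum_const, Finset.card_range, smul_eq_mul, mul_one]
  have hfβ : f.eval β = 0 := by
    change (∏ i ∈ Finset.range n, (X - C ((h^[i]) β))).eval β = 0
    rw [eval_prod]
    refine Finset.prod_eq_zero (Finset.mem_range.2 hn) ?_
    rw [eval_sub, eval_X, eval_C]
    exact sub_self β
  have hfh : f.map h = f := by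
    change (∏ i ∈ Finset.range n, (X - C ((h^[i]) β))).map h = f
    rw [Polynomial.map_prod]
    have h1 : ∏ i ∈ Finset.range n, (X - C ((h^[i]) β)).map h =
        ∏ i ∈ Finset.range n, (X - C ((h^[i + 1]) β)) :=
      Finset.prod_congr rfl fun i _ => by
        rw [Polynomial.map_sub, map_X, map_C, Function.iterate_succ_apply' h i β]
    rw [h1]
    obtain ⟨k, rfl⟩ := Nat.exists_eq_succ_of_ne_zero hn.ne'
    change ∏ i ∈ Finset.range (k + 1), (X - C ((h^[i + 1]) β)) =
      ∏ i ∈ Finset.range (k + 1), (X - C ((h^[i]) β))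
    rw [Finset.prod_range_succ, Finset.prod_range_succ' (fun i => (X - C ((h^[i]) β))) k]
    congr 1
    rw [hnβ]
    rfl
  let Q₀ : Polynomial (treal K) := f - h0 (treal K) n
  have hQ₀ : Q₀.degree < n := by
    have h1 : f.degree = (h0 (treal K) n).degree := by
      rw [degree_eq_natDegree hfm.ne_zero, degree_eq_natDegree (h0_monic _ n).ne_zero, h0_deg, hfd]
    have h2 := degree_sub_lt h1 hfm.ne_zero (by rw [hfm.leadingCoeff, (h0_monic _ n).leadingCoeff])
    rwa [degree_eq_natDegree hfm.ne_zero, hfd] at h2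
  -- the radii
  have hε₁ : 0 < rst w (h β - β) := hW.pos hp (sub_ne_zero.2 hβ)
  set ε₁ := rst w (h β - β) with hε₁def
  obtain ⟨ε₂, hε₂, hsep⟩ := exists_radius hq hU n
  have hδ₁ : 0 < ε₁ ^ n / (1 + rst w ((h0 (treal K) n).eval β)) :=
    div_pos (pow_pos hε₁ n) (by linarith [hW.nonneg ((h0 (treal K) n).eval β)])
  set δ₁ := ε₁ ^ n / (1 + rst w ((h0 (treal K) n).eval β)) with hδ₁def
  have hS : 0 ≤ ∑ i ∈ Finset.range n, rst u (Q₀.eval (i : treal K)) :=
    Finset.sum_nonneg fun i _ => hU.nonneg _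
  set S := ∑ i ∈ Finset.range n, rst u (Q₀.eval (i : treal K)) with hSdef
  have hδ₂ : 0 < ε₂ ^ n / (1 + S) := div_pos (pow_pos hε₂ n) (by linarith)
  set δ₂ := ε₂ ^ n / (1 + S) with hδ₂def
  -- the element
  obtain ⟨c, hc, hc1, hc2⟩ := exists_sep hq hp hU hW (fixed h) he₀ (Ne.symm hne₀)
  obtain ⟨e, he, he1, he2⟩ := exists_approx hq hp hU hW (fixed h) hc hc1 hc2
    (fixed h).zero_mem (lt_min hδ₁ hδ₂)
  rw [sub_zero] at he1
  have he1' : rst u e < δ₂ := lt_of_lt_of_le he1 (min_le_right _ _)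
  have he2' : rst w (e - 1) < δ₁ := lt_of_lt_of_le he2 (min_le_left _ _)
  have hhe : h e = e := he
  -- the polynomial
  obtain ⟨N₀, hN₀⟩ := exists_poly (K := K) (n := n) (Q := C e * Q₀) (by
    refine lt_of_le_of_lt ((degree_mul_le _ _).trans ?_) hQ₀
    calc (C e).degree + Q₀.degree ≤ 0 + Q₀.degree := add_le_add_left degree_C_le _
      _ = Q₀.degree := zero_add _)
  obtain ⟨N, hN, hwN, huN, hclose⟩ := exists_nat hp hq hW hU N₀ hδ₁
  obtain ⟨hgm, hgd, hroots⟩ := hN₀ N hN
  set g : Polynomial (treal K) := h0 (treal K) n + C ((N : treal K)⁻¹) * (C e * Q₀) with hgdef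
  have hgev : ∀ x, g.eval x = (h0 (treal K) n).eval x + (N : treal K)⁻¹ * (e * Q₀.eval x) := by
    intro x
    rw [hgdef, eval_add, eval_mul, eval_mul, eval_C, eval_C]
  have hgh : g.map h = g := by
    rw [hgdef, Polynomial.map_add, Polynomial.map_mul, Polynomial.map_mul, h0_map, map_C, map_C,
      map_inv₀, map_natCast, hhe, Polynomial.map_sub, h0_map, hfh]
  -- the root near `β`
  obtain ⟨γ, hγ, hγβ⟩ := near_tr hp hw hgm hgd hroots (x := β) hε₁ (by
    have h1 : g.eval β = (1 - (N : treal K)⁻¹ * e) * (h0 (treal K) n).eval β := by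
      rw [hgev]
      have h2 : Q₀.eval β = - (h0 (treal K) n).eval β := by
        change (f - h0 (treal K) n).eval β = _
        rw [eval_sub, hfβ, zero_sub]
      rw [h2]
      ring
    rw [h1, hW.mul]
    have h3 : rst w (1 - (N : treal K)⁻¹ * e) < δ₁ := by
      have h4 : 1 - (N : treal K)⁻¹ * e = (1 - (N : treal K)⁻¹) - (N : treal K)⁻¹ * (e - 1) := by
        ring
      rw [h4]
      refine lt_of_le_of_lt (hW.sub hp _ _) (max_lt hclose ?_)
      rw [hW.mul, hW.inv hp, hwN, inv_one, one_mul]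
      exact he2'
    have h5 := hW.nonneg ((h0 (treal K) n).eval β)
    rw [hδ₁def, lt_div_iff₀ (by linarith)] at h3
    refine lt_of_le_of_lt ?_ h3
    exact mul_le_mul_of_nonneg_left (by linarith) (hW.nonneg _))
  have hγne : h γ ≠ γ := by
    intro h1
    have h2 : h β - β = h (β - γ) - (β - γ) := by
      rw [map_sub, h1]
      ring
    have h3 : rst w (h β - β) < ε₁ := by
      rw [h2]
      refine lt_of_le_of_lt (hW.sub hp _ _) (max_lt ?_ hγβ)
      rw [hhW]
      exact hγβ
    exact lt_irrefl _ h3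
  -- the roots near the integers
  have hnear : ∀ i ∈ Finset.range n, ∃ γ : treal K, g.eval γ = 0 ∧ rst u ((i : treal K) - γ) < ε₂ := by
    intro i hi
    refine near_tr hq hu hgm hgd hroots hε₂ ?_
    have h1 : (h0 (treal K) n).eval (i : treal K) = 0 := by
      rw [h0_eval]
      exact Finset.prod_eq_zero hi (sub_self _)
    rw [hgev, h1, zero_add, hU.mul, hU.mul, hU.inv hq, huN, inv_one, one_mul]
    have h2 : rst u (Q₀.eval (i : treal K)) ≤ S :=
      Finset.single_le_sum (f := fun i : ℕ => rst u (Q₀.eval (i : treal K)))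
        (fun j _ => hU.nonneg _) hi
    rw [hδ₂def, lt_div_iff₀ (by linarith)] at he1'
    refine lt_of_le_of_lt ?_ he1'
    exact mul_le_mul_of_nonneg_left (by linarith) (hU.nonneg _)
  choose! z hz1 hz2 using hnear
  have hz2' : ∀ i < n, rst u ((i : treal K) - z i) < ε₂ := fun i hi => hz2 i (Finset.mem_range.2 hi)
  have hclose2 : ∀ i < n, ∀ j < n, rst u ((i : treal K) - z j) < ε₂ → i = j := by
    intro i hi j hj hij
    by_contra hne
    have h1 := hsep i hi j hj hne
    have h2 : (i : treal K) - j = ((i : treal K) - z j) - ((j : treal K) - z j) := by ring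
    rw [h2] at h1
    exact absurd (lt_of_le_of_lt (hU.sub hq _ _) (max_lt hij (hz2' j hj))) (not_lt.2 h1)
  have hall : ∀ y : treal K, g.eval y = 0 → ∃ i < n, z i = y := by
    intro y hy
    have hsub : (Finset.range n).image z ⊆ g.roots.toFinset := by
      intro x hx
      obtain ⟨i, hi, rfl⟩ := Finset.mem_image.1 hx
      rw [Multiset.mem_toFinset, mem_roots hgm.ne_zero]
      exact hz1 i hi
    have hcard : ((Finset.range n).image z).card = n := by
      rw [Finset.card_image_of_injOn, Finset.card_range]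
      intro i hi j hj hij
      have hi' : i < n := by simpa using hi
      have hj' : j < n := by simpa using hj
      have hij' : z i = z j := hij
      refine hclose2 i hi' j hj' ?_
      rw [← hij']
      exact hz2' i hi'
    have heq : (Finset.range n).image z = g.roots.toFinset := by
      refine Finset.eq_of_subset_of_card_le hsub ?_
      rw [hcard]
      exact (Multiset.toFinset_card_le _).trans ((Polynomial.card_roots' g).trans hgd.le)
    have hy' : y ∈ g.roots.toFinset := by
      rw [Multiset.mem_toFinset, mem_roots hgm.ne_zero]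
      exact hy
    rw [← heq] at hy'
    obtain ⟨i, hi, h1⟩ := Finset.mem_image.1 hy'
    exact ⟨i, Finset.mem_range.1 hi, h1⟩
  have hhγ : g.eval (h γ) = 0 := by
    have h1 := Polynomial.eval_map_apply h (p := g) γ
    rw [hgh, hγ, map_zero] at h1
    exact h1
  obtain ⟨i, hi, hiγ⟩ := hall γ hγ
  obtain ⟨j, hj, hjγ⟩ := hall (h γ) hhγ
  have hij : i = j := by
    refine hclose2 i hi j hj ?_
    rw [hjγ, ← hiγ]
    have h1 : (i : treal K) - h (z i) = h ((i : treal K) - z i) := by
      rw [map_sub, map_natCast]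
    rw [h1, hhU]
    exact hz2' i hi
  apply hγne
  rw [← hjγ, ← hiγ, hij]

end

end Pool.Agent.Q20.TR
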