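import Pool.Agent.Q273.SP.Mal
import Pool.Agent.Q246.RP.Conj

/-!
# The maximal totally real extension and complex conjugations
-/

set_option autoImplicit false
set_option linter.unusedSectionVars false

namespace Pool.Agent.Q20.TR

open NumberField Pool.Agent.Q246.RP

section
variable (K : Type) [Field K] [NumberField K] [IsTotallyReal K]

theorem algebraMap_mem (x : K) :
    algebraMap K (AlgebraicClosure K) x ∈ maximalRealSubfield (AlgebraicClosure K) := by
  intro φ
  have h1 := ComplexEmbedding.isReal_iff.1
    (IsTotallyReal.complexEmbedding_isReal (φ.comp (algebraMap K (AlgebraicClosure K))))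
  exact RingHom.congr_fun h1 x

/-- the maximal totally real extension of `K` -/
noncomputable def treal : IntermediateField K (AlgebraicClosure K) :=
  (maximalRealSubfield (AlgebraicClosure K)).toIntermediateField (algebraMap_mem K)

variable {K}

theorem mem_treal {x : AlgebraicClosure K} :
    x ∈ treal K ↔ ∀ φ : AlgebraicClosure K →+* ℂ, star (φ x) = φ x := Iff.rfl

instance normal_treal : Normal K (treal K) := by
  rw [IntermediateField.normal_iff_forall_map_le]
  intro σ
  rintro _ ⟨x, hx, rfl⟩
  rw [mem_treal]
  intro φ
  exact mem_treal.1 hx (φ.comp (σ : AlgebraicClosure K →+* AlgebraicClosure K))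

/-- complex conjugations are trivial on the maximal totally real extension -/
theorem cc_fix {c : Gal(AlgebraicClosure K/K)} (hc : IsCC c) {x : AlgebraicClosure K}
    (hx : x ∈ treal K) : c x = x := by
  obtain ⟨φ, hφ⟩ := hc
  apply φ.injective
  rw [hφ]
  exact mem_treal.1 hx φ

variable (K) in
/-- the restriction -/
noncomputable def rho : Gal(AlgebraicClosure K/K) →* Gal(treal K/K) :=
  AlgEquiv.restrictNormalHom (treal K)

theorem rho_apply (g : Gal(AlgebraicClosure K/K)) (x : treal K) :
    ((rho K g x : treal K) : AlgebraicClosure K) = g x :=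
  AlgEquiv.restrictNormal_commutes g (treal K) x

theorem rho_continuous : Continuous (rho K) := InfiniteGalois.restrictNormalHom_continuous _

theorem rho_surjective : Function.Surjective (rho K) :=
  AlgEquiv.restrictNormalHom_surjective _

theorem rho_cc {c : Gal(AlgebraicClosure K/K)} (hc : IsCC c) : rho K c = 1 := by
  ext x
  rw [rho_apply, cc_fix hc x.2]
  rfl

theorem rho_eq_iff (a b : Gal(AlgebraicClosure K/K)) :
    rho K a = rho K b ↔ ∀ x ∈ treal K, a x = b x := by
  constructor
  · intro h x hx
    have h1 := rho_apply a ⟨x, hx⟩
    have h2 := rho_apply b ⟨x, hx⟩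
    rw [h] at h1
    exact h1.symm.trans h2
  · intro h
    ext x
    rw [rho_apply, rho_apply, h x x.2]

end

end Pool.Agent.Q20.TR
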