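import Pool.Agent.Q20.LG.Conv
import Pool.Agent.Q20.LG.Surj

/-!
# Induction and inflation
-/

set_option autoImplicit false
set_option linter.unusedSectionVars false

namespace Pool.Agent.Q20.TR

open Pool.Agent.Q20.LG
open Subgroup (zpowers)
open scoped Classical

section
variable {Γ Γ' : Type} [Group Γ] [Group Γ']

/-- induction commutes with inflation -/
theorem indu_comap (π : Γ →* Γ') (hπ : Function.Surjective π) (H : Subgroup Γ') (ψ : H →* ℂˣ)
    (g : Γ) : Indu (H.comap π) (fun h => ((ψ ⟨π h, h.2⟩ : ℂˣ) : ℂ)) g =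
      Indu H (fun h => ((ψ h : ℂˣ) : ℂ)) (π g) := by
  unfold Indu
  let e : Γ ⧸ H.comap π → Γ' ⧸ H := Quotient.map' π (fun a b hab => by
    rw [QuotientGroup.leftRel_apply] at hab ⊢
    rw [← map_inv, ← map_mul]
    exact hab)
  have he : Function.Bijective e := by
    constructor
    · intro a b
      induction a using QuotientGroup.induction_on with
      | H a =>
        induction b using QuotientGroup.induction_on with
        | H b =>
          intro hab
          have h1 : (QuotientGroup.mk (π a) : Γ' ⧸ H) = QuotientGroup.mk (π b) := hab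
          rw [QuotientGroup.eq] at h1 ⊢
          rw [← map_inv, ← map_mul] at h1
          exact h1
    · intro y
      induction y using QuotientGroup.induction_on with
      | H y =>
        obtain ⟨a, rfl⟩ := hπ y
        exact ⟨QuotientGroup.mk a, rfl⟩
  rw [← finsum_comp_equiv (Equiv.ofBijective e he)]
  refine finsum_congr fun x => ?_
  change _ = if h : (e x).out⁻¹ * π g * (e x).out ∈ H then ((ψ ⟨_, h⟩ : ℂˣ) : ℂ) else 0
  have h1 : (QuotientGroup.mk (π x.out) : Γ' ⧸ H) = QuotientGroup.mk (e x).out := by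
    rw [QuotientGroup.out_eq']
    have h2 : e (QuotientGroup.mk x.out) = e x := by rw [QuotientGroup.out_eq']
    exact h2
  rw [QuotientGroup.eq] at h1
  set t : H := ⟨_, h1⟩ with ht
  have h2 : (e x).out = π x.out * t := by rw [ht]; group
  have h3 : (e x).out⁻¹ * π g * (e x).out = (t : Γ')⁻¹ * π (x.out⁻¹ * g * x.out) * t := by
    rw [h2, map_mul, map_mul, map_inv]
    group
  by_cases hx : x.out⁻¹ * g * x.out ∈ H.comap π
  · have hx' : π (x.out⁻¹ * g * x.out) ∈ H := hx
    have h4 : (e x).out⁻¹ * π g * (e x).out ∈ H := by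
      rw [h3]
      exact H.mul_mem (H.mul_mem (H.inv_mem t.2) hx') t.2
    rw [dif_pos hx, dif_pos h4]
    have h5 : (⟨(e x).out⁻¹ * π g * (e x).out, h4⟩ : H) = t⁻¹ * ⟨_, hx'⟩ * t := Subtype.ext h3
    have h6 : ψ (⟨(e x).out⁻¹ * π g * (e x).out, h4⟩ : H) = ψ ⟨_, hx'⟩ := by
      rw [h5, map_mul, map_mul, map_inv, mul_comm (ψ t)⁻¹, mul_assoc, inv_mul_cancel, mul_one]
    exact congrArg (fun z : ℂˣ => (z : ℂ)) h6.symm
  · have h4 : (e x).out⁻¹ * π g * (e x).out ∉ H := by
      intro h5
      apply hx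
      change π (x.out⁻¹ * g * x.out) ∈ H
      have h6 : π (x.out⁻¹ * g * x.out) = t * ((e x).out⁻¹ * π g * (e x).out) * (t : Γ')⁻¹ := by
        rw [h3]
        group
      rw [h6]
      exact H.mul_mem (H.mul_mem t.2 h5) (H.inv_mem t.2)
    rw [dif_neg hx, dif_neg h4]

/-- the projection formula for a linear character -/
theorem indu_twist (H : Subgroup Γ) (ε : Γ →* ℂˣ) (φ : H → ℂ) (g : Γ) :
    Indu H (fun h => ((ε h : ℂˣ) : ℂ) * φ h) g = ((ε g : ℂˣ) : ℂ) * Indu H φ g := by
  unfold Indu
  rw [← smul_eq_mul, smul_finsum]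
  refine finsum_congr fun x => ?_
  rw [smul_eq_mul]
  split_ifs with h
  · have h1 : ε (x.out⁻¹ * g * x.out) = ε g := by
      rw [map_mul, map_mul, map_inv, mul_comm (ε x.out)⁻¹, mul_assoc, inv_mul_cancel, mul_one]
    exact congrArg (fun z : ℂˣ => (z : ℂ) * φ ⟨_, h⟩) h1
  · rw [mul_zero]

variable [TopologicalSpace Γ] [TopologicalSpace Γ']

/-- continuous homomorphisms preserve the relation `Same` -/
theorem same_map (θ : Γ →* Γ') (hθ : Continuous θ) [IsTopologicalGroup Γ'] {u v : Γ}
    (h : Same u v) : Same (θ u) (θ v) := by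
  have key : ∀ {u v : Γ}, closure (zpowers u : Set Γ) = closure (zpowers v : Set Γ) →
      θ v ∈ closure (zpowers (θ u) : Set Γ') := by
    intro u v h
    have h1 : closure (zpowers u : Set Γ) ⊆ θ ⁻¹' closure (zpowers (θ u) : Set Γ') := by
      refine closure_minimal ?_ (isClosed_closure.preimage hθ)
      intro y hy
      obtain ⟨k, rfl⟩ := Subgroup.mem_zpowers_iff.1 hy
      exact subset_closure (Subgroup.mem_zpowers_iff.2 ⟨k, (map_zpow θ u k).symm⟩)
    exact h1 (h ▸ subset_closure (Subgroup.mem_zpowers v))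
  exact same_of_mem (key h) (key h.symm)

end

end Pool.Agent.Q20.TR
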