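import Pool.Agent.Q20.TR.Srj
import Pool.Agent.Q20.TR.Crt
import Pool.Agent.Q20.TR.Inf
import Pool.Agent.Q20.LG.Const

/-!
# The criterion for the Galois group of the maximal totally real extension
-/

set_option autoImplicit false
set_option linter.unusedSectionVars false

namespace Pool.Agent.Q20.TR

open NumberField IsDedekindDomain Pool.Agent.Q273.SP Pool.Agent.Q246.RP
open Pool.Agent.Q20.LG
open Pool.Agent.Q246.BI (Smooth IsCharacter induced NN)
open Subgroup (zpowers)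
open scoped Classical

section
variable {K : Type} [Field K] [NumberField K] [IsTotallyReal K]

/-- independence for all places -/
theorem indep0 {p q : ℕ} (hp : p.Prime) (hq : q.Prime) {w u : AlgebraicClosure K → ℝ}
    (hw : IsPl p w) (hu : IsPl q u) {x a b : (bt K).fixingSubgroup} (ha : a ∈ decF (bt K) w)
    (hb : b ∈ decF (bt K) u) (hab : pi K (x⁻¹ * a * x) = pi K b) (ha1 : pi K a ≠ 1) :
    ∃ n : (bt K).fixingSubgroup, pi K n = 1 ∧
      ∀ y, w (((x * n : (bt K).fixingSubgroup) : Gal(AlgebraicClosure K/K)) y) = u y := by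
  have hA : Dec (fun y => w ((x : Gal(AlgebraicClosure K/K)) y))
      ((x⁻¹ * a * x : (bt K).fixingSubgroup) : Gal(AlgebraicClosure K/K)) :=
    Dec.conj ha (x : Gal(AlgebraicClosure K/K))
  have hAB : ∀ y ∈ treal K, ((x⁻¹ * a * x : (bt K).fixingSubgroup) : Gal(AlgebraicClosure K/K)) y =
      (b : Gal(AlgebraicClosure K/K)) y := (rho_eq_iff _ _).1 hab
  have hne : ∃ y ∈ treal K,
      ((x⁻¹ * a * x : (bt K).fixingSubgroup) : Gal(AlgebraicClosure K/K)) y ≠ y := by
    by_contra hcon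
    push Not at hcon
    have h3 : rho K ((x⁻¹ * a * x : (bt K).fixingSubgroup) : Gal(AlgebraicClosure K/K)) = rho K 1 :=
      (rho_eq_iff _ _).2 hcon
    rw [map_one] at h3
    apply ha1
    have h4 : (pi K x)⁻¹ * pi K a * pi K x = 1 := by
      rw [← map_inv, ← map_mul, ← map_mul]
      exact h3
    have h5 : pi K a = pi K x * ((pi K x)⁻¹ * pi K a * pi K x) * (pi K x)⁻¹ := by group
    rw [h5, h4, mul_one, mul_inv_cancel]
  have h3 := schmidt hp hq (hw.comp (x : Gal(AlgebraicClosure K/K))) hu hA hb hAB hne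
  obtain ⟨n, hn1, hn2⟩ := conj_of_eq hp hq (hw.comp (x : Gal(AlgebraicClosure K/K))) hu h3
  have hnG : n ∈ (bt K).fixingSubgroup := by
    rw [IntermediateField.mem_fixingSubgroup_iff]
    intro z hz
    obtain ⟨z, rfl⟩ := IntermediateField.mem_bot.1 hz
    exact n.commutes z
  refine ⟨⟨n, hnG⟩, ?_, hn2⟩
  have h6 : rho K n = rho K 1 := (rho_eq_iff _ _).2 hn1
  rw [map_one] at h6
  exact h6

/-- the local elements in the Galois group of the maximal totally real extension -/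
noncomputable def TG (K : Type) [Field K] [NumberField K] [IsTotallyReal K] (T : Set ℕ)
    (S : Finset ℕ) : Set Gal(treal K/K) := pi K '' TS T S (bt K)

theorem isClosed_tg (T : Set ℕ) (S : Finset ℕ) : IsClosed (TG K T S) :=
  ((isClosed_ts T S (bt K)).isCompact.image pi_continuous).isClosed

theorem tg_conj (T : Set ℕ) (S : Finset ℕ) :
    ∀ t ∈ TG K T S, ∀ x : Gal(treal K/K), x⁻¹ * t * x ∈ TG K T S := by
  rintro _ ⟨t, ht, rfl⟩ x
  obtain ⟨x, rfl⟩ := pi_surjective (K := K) x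
  exact ⟨x⁻¹ * t * x, ts_conj T S (bt K) t ht x, by rw [map_mul, map_mul, map_inv]⟩

theorem tg_pow (T : Set ℕ) (S : Finset ℕ) :
    ∀ t ∈ TG K T S, ∀ k : ℕ, t ^ k ∈ TG K T S := by
  rintro _ ⟨t, ht, rfl⟩ k
  exact ⟨t ^ k, ts_pow T S (bt K) t ht k, by rw [map_pow]⟩

/-- **The local-global principle** for the Galois group of the maximal totally real extension. -/
theorem condG {T : Set ℕ} {S : Finset ℕ} {f : Gal(treal K/K) → ℂ}
    (h : LocS T S (bt K) (infl f)) : Cond (TG K T S) f := by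
  let ι := {z : ℕ × (AlgebraicClosure K → ℝ) // z.1.Prime ∧ z.1 ∉ T ∧ IsPl z.1 z.2}
  have h1 := cond_local (fun i : ι => dec (K := K) i.1.2)
    (fun i => pi K '' {g : (bt K).fixingSubgroup |
      Loc S i.1.1 i.1.2 (g : Gal(AlgebraicClosure K/K))})
    (fun i t ht => by
      obtain ⟨g, hg, rfl⟩ := ht
      exact ⟨g, Loc.dec hg, rfl⟩)
    (fun i t ht ht1 u hu => by
      obtain ⟨a, ha, rfl⟩ := ht
      obtain ⟨x, rfl⟩ := pi_surjective (K := K) u
      have hadec : a ∈ decF (bt K) i.1.2 := Loc.dec ha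
      obtain ⟨n, hn, hn2⟩ := indep0 i.2.1 i.2.1 i.2.2.2 i.2.2.2 (x := x) hadec hadec (by
        rw [map_mul, map_mul, map_inv, mul_assoc, ← hu, inv_mul_cancel_left]) ht1
      exact ⟨x * n, hn2, by rw [map_mul, hn, mul_one]⟩) f
  have h2 : TG K T S = {g | g = 1 ∨ ∃ i : ι, g ∈ pi K '' {g : (bt K).fixingSubgroup |
      Loc S i.1.1 i.1.2 (g : Gal(AlgebraicClosure K/K))}} := by
    ext y
    constructor
    · rintro ⟨t, (rfl | ⟨i, ht⟩), rfl⟩
      · exact Or.inl (map_one _)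
      · exact Or.inr ⟨i, t, ht, rfl⟩
    · rintro (rfl | ⟨i, t, ht, rfl⟩)
      · exact ⟨1, Or.inl rfl, map_one _⟩
      · exact ⟨t, Or.inr ⟨i, ht⟩, rfl⟩
  rw [h2]
  refine h1.2 fun i y y' hyy' ht => ?_
  obtain ⟨t, ht, hty⟩ := ht
  let e := decEquiv i.2.1 i.2.2.2
  have hs : Same (e.symm y) (e.symm y') :=
    same_map e.symm.toMonoidHom (decEquiv_symm_continuous i.2.1 i.2.2.2) hyy'
  have hval : ∀ z : dec (K := K) i.1.2, pi K (e.symm z) = z := by
    intro z
    have h3 := decEquiv_apply i.2.1 i.2.2.2 (e.symm z)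
    rw [← h3]
    exact congrArg Subtype.val (e.apply_symm_apply z)
  have hdec : Dec i.1.2 (t : Gal(AlgebraicClosure K/K)) := Loc.dec ht
  have heq : (((e.symm y)⁻¹ * e.symm y' : decF (bt K) i.1.2) : (bt K).fixingSubgroup) = t := by
    have h3 : pi K (((e.symm y)⁻¹ * e.symm y' : decF (bt K) i.1.2) : (bt K).fixingSubgroup) =
        pi K t := by
      rw [hty, Subgroup.coe_mul, Subgroup.coe_inv, map_mul, map_inv, hval, hval]
      rfl
    exact Subtype.ext (dec_faithful i.2.1 i.2.2.2 ((e.symm y)⁻¹ * e.symm y').2 hdec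
      ((rho_eq_iff _ _).1 h3))
  have h4 := h i.1.1 i.2.1 i.2.2.1 i.1.2 i.2.2.2 (e.symm y) (e.symm y') (e.symm y).2 (e.symm y').2
    ((same_sub _ _).1 hs) (by
      have h5 : ((e.symm y : (bt K).fixingSubgroup)⁻¹ * (e.symm y' : (bt K).fixingSubgroup)) = t :=
        heq
      rw [h5]
      exact ht)
  change f (pi K (e.symm y)) = f (pi K (e.symm y')) at h4
  rw [hval, hval] at h4
  exact h4

/-- the criterion -/
theorem criterionG {T : Set ℕ} {S : Finset ℕ} {f : Gal(treal K/K) → ℂ}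
    (hf : f ∈ RChar Gal(treal K/K)) (h : LocS T S (bt K) (infl f)) :
    ∃ m : ℕ, 0 < m ∧ m • f ∈ AddSubgroup.closure (Unr (TG K T S)) :=
  (criterion (isClosed_tg T S) (tg_conj T S) (tg_pow T S) hf).2 (condG h)

/-- `ψ` is totally even: trivial on the complex conjugations -/
def Even (F : IntermediateField K (AlgebraicClosure K)) (ψ : F.fixingSubgroup →* ℂˣ) : Prop :=
  ∀ c : F.fixingSubgroup, IsCC (c : Gal(AlgebraicClosure K/K)) → ψ c = 1

/-- the characters induced from `ε ψ`, `ψ` a totally even linear character over a totally real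
field, unramified outside `T` and trivial on the decomposition groups above the primes of `S`
outside `T` -/
def GenR (ε : Gal(AlgebraicClosure K/K) →* ℂˣ) (T : Set ℕ) (S : Finset ℕ) :
    Set ((bt K).fixingSubgroup → ℂ) :=
  {f | ∃ (F' : IntermediateField K (AlgebraicClosure K)) (ψ : F'.fixingSubgroup →* ℂˣ),
    FiniteDimensional K F' ∧ IsTotallyReal F' ∧ Smooth F' ψ ∧ Even F' ψ ∧ UnrS T S F' ψ ∧
    f = induced (bt K) F' (fun g => ((ε g : ℂˣ) : ℂ) * ((ψ g : ℂˣ) : ℂ))}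

theorem infl_unr {T : Set ℕ} {S : Finset ℕ} {f : Gal(treal K/K) → ℂ} (hf : f ∈ Unr (TG K T S))
    (ε : Gal(AlgebraicClosure K/K) →* ℂˣ) :
    (fun g : (bt K).fixingSubgroup => ((ε g : ℂˣ) : ℂ) * infl f g) ∈ GenR ε T S := by
  obtain ⟨H, ψ, hH, ⟨U, hU, hUψ⟩, hψ, rfl⟩ := hf
  have hH' : IsOpen ((H.comap (pi K) : Subgroup (bt K).fixingSubgroup) :
      Set (bt K).fixingSubgroup) := hH.preimage pi_continuous
  have hU' : IsOpen ((U.comap (pi K) : Subgroup (bt K).fixingSubgroup) :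
      Set (bt K).fixingSubgroup) := hU.preimage pi_continuous
  let ψ₁ : H.comap (pi K) →* ℂˣ := ψ.comp ((pi K).subgroupComap H)
  obtain ⟨F', ψ', hFF', hfd, hs, hiff, hval, hind⟩ := exists_fld (bt K) (H.comap (pi K)) hH' ψ₁ hU'
    (fun h hh => hUψ _ hh)
  have hmem : ∀ g : Gal(AlgebraicClosure K/K), g ∈ F'.fixingSubgroup →
      ∃ h1 : g ∈ (bt K).fixingSubgroup, (⟨g, h1⟩ : (bt K).fixingSubgroup) ∈ H.comap (pi K) := by
    intro g hg
    have h2 := IntermediateField.fixingSubgroup_antitone hFF' hg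
    exact ⟨h2, (hiff ⟨g, h2⟩).2 hg⟩
  have hle : F' ≤ treal K := by
    have h1 : (treal K).fixingSubgroup ≤ F'.fixingSubgroup := by
      intro g hg
      have hgG : g ∈ (bt K).fixingSubgroup :=
        IntermediateField.fixingSubgroup_antitone (bot_le : bt K ≤ treal K) hg
      refine (hiff ⟨g, hgG⟩).1 ?_
      have h2 : pi K ⟨g, hgG⟩ = 1 := by
        have h3 : rho K g = rho K 1 := (rho_eq_iff _ _).2 fun x hx =>
          (IntermediateField.mem_fixingSubgroup_iff _ _).1 hg x hx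
        rw [map_one] at h3
        exact h3
      change pi K ⟨g, hgG⟩ ∈ H
      rw [h2]
      exact H.one_mem
    have h2 : IntermediateField.fixedField F'.fixingSubgroup ≤
        IntermediateField.fixedField (treal K).fixingSubgroup := by
      intro x hx
      rw [IntermediateField.mem_fixedField_iff] at hx ⊢
      exact fun g hg => hx g (h1 hg)
    rwa [InfiniteGalois.fixedField_fixingSubgroup, InfiniteGalois.fixedField_fixingSubgroup] at h2
  refine ⟨F', ψ', hfd, ?_, hs, ?_, ?_, ?_⟩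
  · have halg : Algebra.IsAlgebraic ℚ (AlgebraicClosure K) := Algebra.IsAlgebraic.trans ℚ K _
    have h1 : IsTotallyReal F'.toSubfield := by
      rw [isTotallyReal_iff_le_maximalRealSubfield]
      exact fun x hx => hle hx
    exact h1
  · intro c hc
    obtain ⟨h2, h3⟩ := hmem c c.2
    rw [hval c h2 h3]
    have h4 : pi K ⟨c, h2⟩ = 1 := rho_cc hc
    change ψ ⟨pi K ⟨c, h2⟩, _⟩ = 1
    have h5 : (⟨pi K ⟨c, h2⟩, h3⟩ : H) = 1 := Subtype.ext h4
    rw [h5, map_one]
  · intro p hp hpT w hw g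
    obtain ⟨h2, h3⟩ := hmem g g.2
    rw [hval g h2 h3]
    constructor
    · intro hg
      exact hψ ⟨pi K ⟨g, h2⟩, h3⟩ ⟨⟨g, h2⟩, Or.inr ⟨⟨(p, w), hp, hpT, hw⟩, Or.inl hg⟩, rfl⟩
    · intro hpS hg
      exact hψ ⟨pi K ⟨g, h2⟩, h3⟩ ⟨⟨g, h2⟩, Or.inr ⟨⟨(p, w), hp, hpT, hw⟩, Or.inr ⟨hpS, hg⟩⟩, rfl⟩
  · funext g
    obtain ⟨ψ₂, hψ₂, h2⟩ := induced_eq (bt K) F' ψ'
    have h3 : induced (bt K) F' (fun g => ((ε g : ℂˣ) : ℂ) * ((ψ' g : ℂˣ) : ℂ)) g =
        ((ε g : ℂˣ) : ℂ) * induced (bt K) F' (fun g => ((ψ' g : ℂˣ) : ℂ)) g := by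
      rw [induced_indu, induced_indu]
      exact indu_twist (HH (bt K) F') (ε.comp (bt K).fixingSubgroup.subtype)
        (fun h => ((ψ' (toG (bt K) F' h) : ℂˣ) : ℂ)) g
    rw [h3, hind]
    congr 1
    exact (indu_comap (pi K) pi_surjective H ψ g).symm

end

end Pool.Agent.Q20.TR
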