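import Pool.Agent.Q20.TR.Gam
import Pool.Agent.Q20.LG.Exist

/-!
# The induction theorem
-/

set_option autoImplicit false
set_option linter.unusedSectionVars false

namespace Pool.Agent.Q20.TR

open NumberField IsDedekindDomain Pool.Agent.Q273.SP Pool.Agent.Q246.RP
open Pool.Agent.Q20.LG
open Pool.Agent.Q246.BI (Smooth IsCharacter induced NN)
open Subgroup (zpowers)
open scoped Classical

section
variable {K : Type} [Field K] [NumberField K]

/-- a continuous character of order two (or one) -/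
structure Quad (ε : Gal(AlgebraicClosure K/K) →* ℂˣ) : Prop where
  smooth : ∃ E : IntermediateField K (AlgebraicClosure K), FiniteDimensional K E ∧
    ∀ g ∈ E.fixingSubgroup, ε g = 1
  sq : ∀ g, ε g * ε g = 1

theorem Quad.sqC {ε : Gal(AlgebraicClosure K/K) →* ℂˣ} (h : Quad ε)
    (g : Gal(AlgebraicClosure K/K)) : ((ε g : ℂˣ) : ℂ) * ((ε g : ℂˣ) : ℂ) = 1 := by
  rw [← Units.val_mul, h.sq, Units.val_one]

theorem Quad.rat {ε : Gal(AlgebraicClosure K/K) →* ℂˣ} (h : Quad ε)
    (g : Gal(AlgebraicClosure K/K)) : ∃ q : ℚ, ((ε g : ℂˣ) : ℂ) = q := by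
  rcases mul_self_eq_one_iff.1 (h.sqC g) with h1 | h1
  · exact ⟨1, by rw [h1, Rat.cast_one]⟩
  · exact ⟨-1, by rw [h1]; push_cast; rfl⟩

theorem Quad.rchar {ε : Gal(AlgebraicClosure K/K) →* ℂˣ} (h : Quad ε) :
    (fun g : (bt K).fixingSubgroup => ((ε g : ℂˣ) : ℂ)) ∈ RChar (bt K).fixingSubgroup := by
  refine AddSubgroup.subset_closure ?_
  obtain ⟨E, hE, hEε⟩ := h.smooth
  refine ⟨1, (Units.map (Matrix.scalar (Fin 1) (α := ℂ)).toMonoidHom).comp
    (ε.comp (bt K).fixingSubgroup.subtype), E.fixingSubgroup.subgroupOf (bt K).fixingSubgroup,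
    isOpen_sub (bt K) E, fun g hg => ?_, fun g => ?_⟩
  · rw [MonoidHom.comp_apply, MonoidHom.comp_apply]
    have h1 : ε ((bt K).fixingSubgroup.subtype g) = 1 := hEε _ hg
    rw [h1, map_one]
  · change _ = (Matrix.scalar (Fin 1) ((ε g : ℂˣ) : ℂ)).trace
    simp [Matrix.trace]

theorem Quad.same {ε : Gal(AlgebraicClosure K/K) →* ℂˣ} (h : Quad ε)
    {u v : (bt K).fixingSubgroup} (huv : Same u v) : ((ε u : ℂˣ) : ℂ) = ((ε v : ℂˣ) : ℂ) := by
  obtain ⟨q, hq⟩ := h.rat u
  exact rat_same h.rchar huv (q := q) hq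

variable [IsTotallyReal K]

/-- twisted inflation -/
noncomputable def tw (ε : Gal(AlgebraicClosure K/K) →* ℂˣ) :
    (Gal(treal K/K) → ℂ) →+ ((bt K).fixingSubgroup → ℂ) where
  toFun := fun f g => ((ε g : ℂˣ) : ℂ) * infl f g
  map_zero' := funext fun g => mul_zero _
  map_add' := fun a b => funext fun g => mul_add _ _ _

theorem tw_mem {ε : Gal(AlgebraicClosure K/K) →* ℂˣ} (h : Quad ε) {f : Gal(treal K/K) → ℂ}
    (hf : f ∈ RChar Gal(treal K/K)) : tw ε f ∈ RChar (bt K).fixingSubgroup :=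
  rchar_mul h.rchar (infl_mem hf)

theorem tw_closure {ε : Gal(AlgebraicClosure K/K) →* ℂˣ} {T : Set ℕ} {S : Finset ℕ}
    {f : Gal(treal K/K) → ℂ} (hf : f ∈ AddSubgroup.closure (Unr (TG K T S))) :
    tw ε f ∈ AddSubgroup.closure (GenR ε T S) := by
  have h1 : AddSubgroup.closure (Unr (TG K T S)) ≤
      (AddSubgroup.closure (GenR ε T S)).comap (tw ε) := by
    rw [AddSubgroup.closure_le]
    exact fun a ha => AddSubgroup.subset_closure (infl_unr ha ε)
  exact h1 hf

/-- the twisted inflation satisfies the local condition -/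
theorem tw_loc {ε : Gal(AlgebraicClosure K/K) →* ℂˣ} (h : Quad ε) {T : Set ℕ} {S : Finset ℕ}
    {f : Gal(treal K/K) → ℂ} (hf : LocS T S (bt K) (infl f)) : LocS T S (bt K) (tw ε f) := by
  intro p hp hpT w hw u v hu hv huv ht
  change ((ε u : ℂˣ) : ℂ) * infl f u = ((ε v : ℂˣ) : ℂ) * infl f v
  rw [hf p hp hpT w hw u v hu hv huv ht, h.same huv]

/-- all generators -/
def GenAll (M : ℕ) (ε : Gal(AlgebraicClosure K/K) →* ℂˣ) (S : Finset ℕ)
    (L : IntermediateField K (AlgebraicClosure K)) : Set ((bt K).fixingSubgroup → ℂ) :=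
  (⋃ p : {p : ℕ // p.Prime}, GenR ε {p.1} S) ∪ GenS M ∅ S L (bt K)

theorem step {M : ℕ} (hM : 0 < M) {ε : Gal(AlgebraicClosure K/K) →* ℂˣ} (hε : Quad ε)
    (S : Finset ℕ) (L : IntermediateField K (AlgebraicClosure K)) [FiniteDimensional K L] :
    ∀ P : Finset ℕ, ∀ f ∈ RChar (bt K).fixingSubgroup,
      LocS (P : Set ℕ) S (bt K) f → f ∈ sat (AddSubgroup.closure (GenAll M ε S L)) := by
  intro P
  induction P using Finset.induction with
  | empty =>
    intro f hf hloc
    rw [Finset.coe_empty] at hloc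
    obtain ⟨m, hm, h1⟩ := cond_genS hM ∅ S L (bt K) hf hloc
    exact ⟨m, hm, AddSubgroup.closure_mono Set.subset_union_right h1⟩
  | insert p P hpP ih =>
    intro f hf hloc
    by_cases hp : p.Prime
    swap
    · refine ih f hf fun q hq hqP w hw => hloc q hq ?_ w hw
      rw [Finset.coe_insert]
      rintro (h | h)
      · exact hp (h ▸ hq)
      · exact hqP h
    choose w hw using fun v => exists_place (bt K) v
    -- the primes above `p` and `S`
    have hfin := finite_above (bt K) (insert p (S.filter Nat.Prime)) (fun q hq => by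
      rcases Finset.mem_insert.1 hq with rfl | hq
      · exact hp
      · exact (Finset.mem_filter.1 hq).2)
    let S₀ : Finset (HeightOneSpectrum (𝓞 (bt K))) := hfin.toFinset
    obtain ⟨m, hm, f₁, hf₁, h1, h2⟩ := surjT hw S₀
      (fun v g => if (p : 𝓞 (bt K)) ∈ v.asIdeal then ((ε g : ℂˣ) : ℂ) * f g else 0)
      (fun v _ => by
        by_cases hv : (p : 𝓞 (bt K)) ∈ v.asIdeal
        · simp only [if_pos hv]
          exact rchar_res (decF (bt K) (w v)) (rchar_mul hε.rchar hf)
        · simp only [if_neg hv]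
          exact zero_mem (RChar (decF (bt K) (w v))))
    have hloc₁ : LocS {p} S (bt K) (infl f₁) := by
      refine locS_chosen {p} S (bt K) hw (infl_mem hf₁) ?_
      intro v q hq hqp hqw a b hab ht
      have hpv : (p : 𝓞 (bt K)) ∉ v.asIdeal := by
        rw [above_prime (hw v) hp]
        exact fun h => hqp (prime_unique hq hp hqw h)
      by_cases hv : v ∈ S₀
      · have h3 : ∀ g : decF (bt K) (w v), infl f₁ g = 0 := by
          intro g
          rw [h1 v hv g]
          simp only [if_neg hpv]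
          rw [sub_zero, smul_zero]
        rw [h3, h3]
      · have hqS : q ∉ S := by
          intro hqS
          apply hv
          refine hfin.mem_toFinset.2 ⟨q, Finset.mem_insert_of_mem (Finset.mem_filter.2 ⟨hqS, hq⟩), ?_⟩
          exact (above_prime (hw v) hq).2 hqw
        have h4 := (mem_vl_iff (hw v) (rchar_res (decF (bt K) (w v)) (infl_mem hf₁))).1 (h2 v hv)
        rcases ht with ht | ht
        · exact h4 a b hab ht
        · exact absurd ht.1 hqS
    have hW₁ : tw ε f₁ ∈ sat (AddSubgroup.closure (GenAll M ε S L)) := by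
      obtain ⟨k, hk, h3⟩ := criterionG hf₁ hloc₁
      refine ⟨k, hk, ?_⟩
      have h4 := tw_closure (ε := ε) h3
      rw [map_nsmul] at h4
      exact AddSubgroup.closure_mono (Set.subset_union_of_subset_left
        (Set.subset_iUnion (fun p : {p : ℕ // p.Prime} => GenR ε {p.1} S) ⟨p, hp⟩) _) h4
    have hf₂ : m • f - tw ε f₁ ∈ RChar (bt K).fixingSubgroup :=
      sub_mem (nsmul_mem hf m) (tw_mem hε hf₁)
    have hloc₂ : LocS (P : Set ℕ) S (bt K) (m • f - tw ε f₁) := by
      refine locS_chosen (P : Set ℕ) S (bt K) hw hf₂ ?_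
      intro v q hq hqP hqw a b hab ht
      have hab' := (same_sub (Δ := decF (bt K) (w v)) a b).1 hab
      by_cases hqp : q = p
      · subst hqp
        have hpv : (q : 𝓞 (bt K)) ∈ v.asIdeal := (above_prime (hw v) hq).2 hqw
        have hv : v ∈ S₀ := hfin.mem_toFinset.2 ⟨q, Finset.mem_insert_self _ _, hpv⟩
        have h3 : ∀ g : decF (bt K) (w v), (m • f - tw ε f₁) (g : (bt K).fixingSubgroup) =
            (m : ℂ) * f 1 * ((ε g : ℂˣ) : ℂ) := by
          intro g
          have h4 := h1 v hv g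
          simp only [if_pos hpv] at h4
          rw [OneMemClass.coe_one, OneMemClass.coe_one, map_one, Units.val_one, one_mul,
            nsmul_eq_mul] at h4
          have h5 := hε.sqC ((g : (bt K).fixingSubgroup) : Gal(AlgebraicClosure K/K))
          change (m • f) (g : (bt K).fixingSubgroup) - ((ε g : ℂˣ) : ℂ) * infl f₁ g = _
          rw [h4, Pi.smul_apply, nsmul_eq_mul]
          linear_combination (-(m : ℂ) * f g) * h5
        rw [h3, h3, hε.same hab']
      · have h3 := hloc q hq (by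
          rw [Finset.coe_insert]
          rintro (h | h)
          · exact hqp h
          · exact hqP h) (w v) hqw a b a.2 b.2 hab' ht
        have h4 := tw_loc hε hloc₁ q hq hqp (w v) hqw a b a.2 b.2 hab' ht
        rw [Pi.sub_apply, Pi.sub_apply, Pi.smul_apply, Pi.smul_apply, h3, h4]
    have hW₂ := ih _ hf₂ hloc₂
    have h3 : m • f ∈ sat (AddSubgroup.closure (GenAll M ε S L)) := by
      have h4 := add_mem hW₂ hW₁
      rwa [sub_add_cancel] at h4
    obtain ⟨k, hk, h4⟩ := h3
    refine ⟨k * m, Nat.mul_pos hk hm, ?_⟩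
    rw [mul_nsmul']
    exact h4

/-- **The induction theorem.** -/
theorem induction_theorem {M : ℕ} (hM : 0 < M) {ε : Gal(AlgebraicClosure K/K) →* ℂˣ}
    (hε : Quad ε) (S : Finset ℕ) (L : IntermediateField K (AlgebraicClosure K))
    [FiniteDimensional K L] {f : (bt K).fixingSubgroup → ℂ}
    (hf : f ∈ RChar (bt K).fixingSubgroup) :
    ∃ m : ℕ, 0 < m ∧ m • f ∈ AddSubgroup.closure (GenAll M ε S L) := by
  obtain ⟨T₁, hT₁, h1⟩ := cond_unram (bt K) hf
  refine step hM hε S L (T₁ ∪ S) f hf fun p hp hpT w hw u v hu hv huv ht => ?_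
  rw [Finset.coe_union] at hpT
  have hp1 : p ∉ T₁ := fun h => hpT (Or.inl h)
  have hp2 : p ∉ S := fun h => hpT (Or.inr h)
  rcases ht with ht | ht
  · exact h1 p hp hp1 w hw ⟨u, hu⟩ ⟨v, hv⟩
      ((same_sub (Δ := decF (bt K) w) ⟨u, hu⟩ ⟨v, hv⟩).2 huv) ht
  · exact absurd ht.1 hp2

end

end Pool.Agent.Q20.TR
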