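import Pool.Agent.Q20.LG.IndC
import Pool.Agent.Q20.LG.Surj

/-!
# Products of virtual characters; the regular character of a finite quotient
-/

set_option autoImplicit false
set_option linter.unusedSectionVars false

namespace Pool.Agent.Q20.TR

open Pool.Agent.Q20.LG
open scoped Classical Kronecker

section
variable {Γ : Type} [Group Γ] [TopologicalSpace Γ]

/-- the tensor product -/
noncomputable def tens {n m : ℕ} (τ : Γ →* Matrix (Fin n) (Fin n) ℂ)
    (τ' : Γ →* Matrix (Fin m) (Fin m) ℂ) : Γ →* Matrix (Fin n × Fin m) (Fin n × Fin m) ℂ where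
  toFun := fun g => τ g ⊗ₖ τ' g
  map_one' := by rw [map_one, map_one, Matrix.one_kronecker_one]
  map_mul' := fun a b => by rw [map_mul, map_mul, Matrix.mul_kronecker_mul]

theorem isChar_mul {χ χ' : Γ → ℂ} (h : IsChar χ) (h' : IsChar χ') :
    IsChar (fun g => χ g * χ' g) := by
  obtain ⟨n, τ, U, hU, hUτ, hτ⟩ := h
  obtain ⟨m, τ', U', hU', hUτ', hτ'⟩ := h'
  let σ := tens ((Units.coeHom _).comp τ) ((Units.coeHom _).comp τ')
  have h1 : IsChar (fun g => (σ g).trace) := by
    refine isChar_of_mat σ (U := U ⊓ U') (hU.inter hU') fun g hg => ?_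
    change (τ g : Matrix (Fin n) (Fin n) ℂ) ⊗ₖ (τ' g : Matrix (Fin m) (Fin m) ℂ) = 1
    rw [hUτ g hg.1, hUτ' g hg.2, Units.val_one, Units.val_one, Matrix.one_kronecker_one]
  have h2 : (fun g => χ g * χ' g) = fun g => (σ g).trace := by
    funext g
    rw [hτ, hτ']
    exact (Matrix.trace_kronecker _ _).symm
  rw [h2]
  exact h1

theorem rchar_mul {f f' : Γ → ℂ} (h : f ∈ RChar Γ) (h' : f' ∈ RChar Γ) :
    (fun g => f g * f' g) ∈ RChar Γ := by
  induction h using AddSubgroup.closure_induction with
  | mem f hf =>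
    induction h' using AddSubgroup.closure_induction with
    | mem f' hf' => exact AddSubgroup.subset_closure (isChar_mul hf hf')
    | zero =>
      have h1 : (fun g => f g * (0 : Γ → ℂ) g) = 0 := funext fun g => mul_zero _
      rw [h1]
      exact zero_mem (RChar Γ)
    | add a b _ _ ha hb =>
      have h1 : (fun g => f g * (a + b) g) = (fun g => f g * a g) + fun g => f g * b g :=
        funext fun g => mul_add _ _ _
      rw [h1]
      exact add_mem ha hb
    | neg a _ ha =>
      have h1 : (fun g => f g * (-a) g) = -(fun g => f g * a g) := funext fun g => mul_neg _ _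
      rw [h1]
      exact neg_mem ha
  | zero =>
    have h1 : (fun g => (0 : Γ → ℂ) g * f' g) = 0 := funext fun g => zero_mul _
    rw [h1]
    exact zero_mem (RChar Γ)
  | add a b _ _ ha hb =>
    have h1 : (fun g => (a + b) g * f' g) = (fun g => a g * f' g) + fun g => b g * f' g :=
      funext fun g => add_mul _ _ _
    rw [h1]
    exact add_mem ha hb
  | neg a _ ha =>
    have h1 : (fun g => (-a) g * f' g) = -(fun g => a g * f' g) := funext fun g => neg_mul _ _
    rw [h1]
    exact neg_mem ha

variable [IsTopologicalGroup Γ] [CompactSpace Γ] [TotallyDisconnectedSpace Γ]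

/-- the regular character of a finite quotient -/
theorem regular (N : Subgroup Γ) [N.Normal] (hN : IsOpen (N : Set Γ)) :
    (fun g => if g ∈ N then (Nat.card (Γ ⧸ N) : ℂ) else 0) ∈ RChar Γ := by
  have hfin : Finite (Γ ⧸ N) := Subgroup.quotient_finite_of_isOpen N hN
  have : Fintype (Γ ⧸ N) := Fintype.ofFinite _
  have h1 := indu_rchar N hN (φ := fun _ => (1 : ℂ)) one_mem_rchar
  refine cast (congrArg (· ∈ RChar Γ) ?_) h1
  funext g
  unfold Indu
  rw [finsum_eq_sum_of_fintype]
  have h2 : ∀ x : Γ ⧸ N, (x.out⁻¹ * g * x.out ∈ N) ↔ g ∈ N := by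
    intro x
    constructor
    · intro h
      have h3 := (inferInstance : N.Normal).conj_mem _ h x.out
      have h4 : x.out * (x.out⁻¹ * g * x.out) * x.out⁻¹ = g := by group
      rwa [h4] at h3
    · intro h
      have h3 := (inferInstance : N.Normal).conj_mem _ h x.out⁻¹
      rwa [inv_inv] at h3
  by_cases hg : g ∈ N
  · rw [if_pos hg]
    have h3 : ∀ x : Γ ⧸ N, (if h : x.out⁻¹ * g * x.out ∈ N then (1 : ℂ) else 0) = 1 :=
      fun x => dif_pos ((h2 x).2 hg)
    rw [Finset.sum_congr rfl fun x _ => h3 x, Finset.sum_const, Finset.card_univ,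
      Nat.card_eq_fintype_card, nsmul_eq_mul, mul_one]
  · rw [if_neg hg]
    exact Finset.sum_eq_zero fun x _ => dif_neg fun h => hg ((h2 x).1 h)

end

end Pool.Agent.Q20.TR
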