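import Pool.Agent.Q20.TR.Ind

/-!
# The totally odd quadratic character of `K(i)`
-/

set_option autoImplicit false
set_option linter.unusedSectionVars false

namespace Pool.Agent.Q20.TR

open NumberField Pool.Agent.Q273.SP Pool.Agent.Q246.RP
open scoped Classical

section
variable (K : Type) [Field K]

theorem exists_i : ∃ z : AlgebraicClosure K, z * z = -1 := by
  obtain ⟨z, hz⟩ := IsAlgClosed.exists_pow_nat_eq (-1 : AlgebraicClosure K) (n := 2) (by norm_num)
  exact ⟨z, by rw [← pow_two]; exact hz⟩

/-- a square root of `-1` -/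
noncomputable def ii : AlgebraicClosure K := (exists_i K).choose

theorem ii_sq : ii K * ii K = -1 := (exists_i K).choose_spec

variable {K}

theorem apply_ii (g : Gal(AlgebraicClosure K/K)) : g (ii K) = ii K ∨ g (ii K) = -ii K := by
  have h : g (ii K) * g (ii K) = ii K * ii K := by
    rw [← map_mul, ii_sq, map_neg, map_one]
  exact mul_self_eq_mul_self_iff.1 h

variable (K)

/-- the sign of the action on `√-1` -/
noncomputable def sg (g : Gal(AlgebraicClosure K/K)) : ℂˣ := if g (ii K) = ii K then 1 else -1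

variable {K}

theorem sg_eq (g : Gal(AlgebraicClosure K/K)) :
    (g (ii K) = ii K ∧ sg K g = 1) ∨ (g (ii K) = -ii K ∧ g (ii K) ≠ ii K ∧ sg K g = -1) := by
  by_cases h : g (ii K) = ii K
  · exact Or.inl ⟨h, if_pos h⟩
  · exact Or.inr ⟨(apply_ii g).resolve_left h, h, if_neg h⟩

variable (K)

/-- the quadratic character of `K(√-1)` -/
noncomputable def odd : Gal(AlgebraicClosure K/K) →* ℂˣ where
  toFun := sg K
  map_one' := if_pos rfl
  map_mul' := fun a b => by
    rcases sg_eq a with ⟨h1, h2⟩ | ⟨h1, h1', h2⟩ <;> rcases sg_eq b with ⟨h3, h4⟩ | ⟨h3, h3', h4⟩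
    · have h5 : (a * b) (ii K) = ii K := by rw [AlgEquiv.mul_apply, h3, h1]
      rw [h2, h4, mul_one]
      exact if_pos h5
    · have h5 : (a * b) (ii K) = -ii K := by rw [AlgEquiv.mul_apply, h3, map_neg, h1]
      rw [h2, h4, one_mul]
      exact if_neg (by rw [h5, ← h3]; exact h3')
    · have h5 : (a * b) (ii K) = a (ii K) := by rw [AlgEquiv.mul_apply, h3]
      rw [h2, h4, mul_one]
      exact if_neg (by rw [h5]; exact h1')
    · have h5 : (a * b) (ii K) = ii K := by rw [AlgEquiv.mul_apply, h3, map_neg, h1, neg_neg]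
      rw [h2, h4, neg_mul_neg, one_mul]
      exact if_pos h5

variable {K}

theorem quad_odd : Quad (odd K) where
  smooth := by
    refine ⟨IntermediateField.adjoin K {ii K},
      IntermediateField.adjoin.finiteDimensional (Algebra.IsIntegral.isIntegral _), fun g hg => ?_⟩
    have h1 : g (ii K) = ii K := (IntermediateField.mem_fixingSubgroup_iff _ _).1 hg _
      (IntermediateField.mem_adjoin_simple_self K (ii K))
    exact if_pos h1
  sq := fun g => by
    change sg K g * sg K g = 1
    rcases sg_eq g with ⟨h1, h2⟩ | ⟨h1, h1', h2⟩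
    · rw [h2, one_mul]
    · rw [h2, neg_mul_neg, one_mul]

theorem quad_one : Quad (1 : Gal(AlgebraicClosure K/K) →* ℂˣ) where
  smooth := ⟨⊥, inferInstance, fun _ _ => rfl⟩
  sq := fun g => one_mul _

theorem odd_cc {c : Gal(AlgebraicClosure K/K)} (hc : IsCC c) : odd K c = -1 := by
  obtain ⟨φ, hφ⟩ := hc
  change sg K c = -1
  rcases sg_eq c with ⟨h1, h2⟩ | ⟨h1, h1', h2⟩
  · exfalso
    have h3 : φ (ii K) * φ (ii K) = -1 := by rw [← map_mul, ii_sq, map_neg, map_one]
    have h4 : φ (c (ii K)) = star (φ (ii K)) := hφ (ii K)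
    rw [h1] at h4
    have h5 : (φ (ii K)).im = 0 := by
      have h6 := congrArg Complex.im h4
      rw [Complex.star_def, Complex.conj_im] at h6
      linarith
    have h6 := congrArg Complex.re h3
    rw [Complex.mul_re, h5, mul_zero, sub_zero, Complex.neg_re, Complex.one_re] at h6
    nlinarith [mul_self_nonneg (φ (ii K)).re]
  · exact h2

end

end Pool.Agent.Q20.TR
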