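import Pool.Agent.Q20.TR.Den
import Pool.Agent.Q20.LG.Terms
import Pool.Agent.Q20.LG.Surj
import Pool.Agent.Q20.LG.IndC

/-!
# Places with the same restriction to the maximal totally real extension are conjugate over it
-/

set_option autoImplicit false
set_option linter.unusedSectionVars false

namespace Pool.Agent.Q20.TR

open NumberField IsDedekindDomain Pool.Agent.Q273.SP Pool.Agent.Q246.RP
open Pool.Agent.Q20.LG

section
variable {K : Type} [Field K] [NumberField K] [IsTotallyReal K]

/-- **Conjugation over the maximal totally real extension.** -/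
theorem conj_of_eq {p q : ℕ} (hp : p.Prime) (hq : q.Prime) {w u : AlgebraicClosure K → ℝ}
    (hw : IsPl p w) (hu : IsPl q u) (h : ∀ x ∈ treal K, w x = u x) :
    ∃ n : Gal(AlgebraicClosure K/K), (∀ x ∈ treal K, n x = x) ∧ ∀ x, w (n x) = u x := by
  let ι : Type := {F : IntermediateField K (AlgebraicClosure K) //
    FiniteDimensional K F ∧ F ≤ treal K}
  let Z : ι → Set Gal(AlgebraicClosure K/K) := fun F =>
    (F.1.fixingSubgroup : Set Gal(AlgebraicClosure K/K)) ∩ ⋂ x, {g | w (g x) = u x}
  have hne : Nonempty ι := ⟨⟨⊥, inferInstance, bot_le⟩⟩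
  have hcl : ∀ F, IsClosed (Z F) := fun F => by
    have h1 : FiniteDimensional K F.1 := F.2.1
    exact (IntermediateField.fixingSubgroup_isClosed F.1).inter
      (isClosed_iInter fun x => (isClopen_eval x fun y => w y = u x).1)
  obtain ⟨n, hn⟩ := IsCompact.nonempty_iInter_of_directed_nonempty_isCompact_isClosed Z
    (fun F F' => by
      have h1 : FiniteDimensional K F.1 := F.2.1
      have h2 : FiniteDimensional K F'.1 := F'.2.1
      refine ⟨⟨F.1 ⊔ F'.1, inferInstance, sup_le F.2.2 F'.2.2⟩, ?_, ?_⟩
      · exact Set.inter_subset_inter_left _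
          (IntermediateField.fixingSubgroup_antitone (le_sup_left : F.1 ≤ F.1 ⊔ F'.1))
      · exact Set.inter_subset_inter_left _
          (IntermediateField.fixingSubgroup_antitone (le_sup_right : F'.1 ≤ F.1 ⊔ F'.1)))
    (fun F => by
      have h1 : FiniteDimensional K F.1 := F.2.1
      obtain ⟨v, hv, -⟩ := exists_above F.1 hp hw
      have hv' : Above F.1 v u := by
        refine ⟨⟨q, hq, hu⟩, fun y => ?_⟩
        rw [hv.2, h _ (F.2.2 (y : F.1).2)]
      obtain ⟨g, hg⟩ := transitive F.1 v hv hv'
      refine ⟨g, g.2, Set.mem_iInter.2 fun x => ?_⟩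
      exact (congrFun hg x).symm)
    (fun F => (hcl F).isCompact) hcl
  rw [Set.mem_iInter] at hn
  refine ⟨n, fun x hx => ?_, fun x => Set.mem_iInter.1 (hn ⟨⊥, inferInstance, bot_le⟩).2 x⟩
  have hint : IsIntegral K x := Algebra.IsIntegral.isIntegral x
  have hfd := IntermediateField.adjoin.finiteDimensional hint
  have h1 := (hn ⟨IntermediateField.adjoin K {x}, hfd, by
    rw [IntermediateField.adjoin_simple_le_iff]
    exact hx⟩).1
  exact (IntermediateField.mem_fixingSubgroup_iff _ _).1 h1 x
    (IntermediateField.mem_adjoin_simple_self K x)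

/-- `Gal(K̄/K)` as the group of the field `K` in `K̄` -/
noncomputable abbrev GK (K : Type) [Field K] : Subgroup Gal(AlgebraicClosure K/K) :=
  (⊥ : IntermediateField K (AlgebraicClosure K)).fixingSubgroup

variable (K) in
/-- the restriction to the maximal totally real extension -/
noncomputable def pi : GK K →* Gal(treal K/K) := (rho K).comp (GK K).subtype

theorem pi_continuous : Continuous (pi K) := rho_continuous.comp continuous_subtype_val

theorem pi_surjective : Function.Surjective (pi K) := by
  intro y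
  obtain ⟨g, rfl⟩ := rho_surjective (K := K) y
  refine ⟨⟨g, ?_⟩, rfl⟩
  rw [IntermediateField.mem_fixingSubgroup_iff]
  intro x hx
  obtain ⟨z, rfl⟩ := IntermediateField.mem_bot.1 hx
  exact g.commutes z

/-- the decomposition group in the Galois group of the maximal totally real extension -/
noncomputable def dec (w : AlgebraicClosure K → ℝ) : Subgroup Gal(treal K/K) :=
  (decF (⊥ : IntermediateField K (AlgebraicClosure K)) w).map (pi K)

theorem isClosed_decT (w : AlgebraicClosure K → ℝ) : IsClosed (dec w : Set Gal(treal K/K)) := by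
  have h1 : IsCompact (decF (⊥ : IntermediateField K (AlgebraicClosure K)) w : Set (GK K)) :=
    isCompact_iff_compactSpace.2 (decF_compact _ w)
  have h2 := h1.image (pi_continuous (K := K))
  exact h2.isClosed

/-- **The decomposition groups of chosen places are independent.** -/
theorem indepT {w : HeightOneSpectrum (𝓞 (⊥ : IntermediateField K (AlgebraicClosure K))) →
      (AlgebraicClosure K → ℝ)} (hw : ∀ v, Above ⊥ v (w v))
    (i j : HeightOneSpectrum (𝓞 (⊥ : IntermediateField K (AlgebraicClosure K))))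
    (x a b : Gal(treal K/K)) (ha : a ∈ dec (w i)) (hb : b ∈ dec (w j))
    (hab : x⁻¹ * a * x = b) (ha1 : a ≠ 1) : i = j ∧ x ∈ dec (w i) := by
  obtain ⟨a, ha, rfl⟩ := ha
  obtain ⟨b, hb, rfl⟩ := hb
  obtain ⟨x, rfl⟩ := pi_surjective (K := K) x
  obtain ⟨⟨p, hp, hpw⟩, h1⟩ := hw i
  obtain ⟨⟨q, hq, hqw⟩, h2⟩ := hw j
  have hA : Dec (fun y => w i ((x : Gal(AlgebraicClosure K/K)) y))
      ((x⁻¹ * a * x : GK K) : Gal(AlgebraicClosure K/K)) := by
    have h5 := Dec.conj ha (x : Gal(AlgebraicClosure K/K))
    exact h5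
  have hAB : ∀ y ∈ treal K, ((x⁻¹ * a * x : GK K) : Gal(AlgebraicClosure K/K)) y =
      (b : Gal(AlgebraicClosure K/K)) y := by
    rw [← rho_eq_iff]
    have h3 : pi K (x⁻¹ * a * x) = pi K b := by
      rw [map_mul, map_mul, map_inv]
      exact hab
    exact h3
  have hne : ∃ y ∈ treal K, ((x⁻¹ * a * x : GK K) : Gal(AlgebraicClosure K/K)) y ≠ y := by
    by_contra hcon
    push Not at hcon
    have h3 : rho K ((x⁻¹ * a * x : GK K) : Gal(AlgebraicClosure K/K)) = rho K 1 :=
      (rho_eq_iff _ _).2 hcon
    rw [map_one] at h3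
    apply ha1
    have h4 : (pi K x)⁻¹ * pi K a * pi K x = 1 := by
      rw [← map_inv, ← map_mul, ← map_mul]
      exact h3
    have h5 : pi K a = pi K x * ((pi K x)⁻¹ * pi K a * pi K x) * (pi K x)⁻¹ := by group
    rw [h5, h4, mul_one, mul_inv_cancel]
  have h3 := schmidt hp hq (hpw.comp (x : Gal(AlgebraicClosure K/K))) hqw hA hb hAB hne
  obtain ⟨n, hn1, hn2⟩ := conj_of_eq hp hq (hpw.comp (x : Gal(AlgebraicClosure K/K))) hqw h3
  have hnG : n ∈ GK K := by
    rw [IntermediateField.mem_fixingSubgroup_iff]
    intro z hz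
    obtain ⟨z, rfl⟩ := IntermediateField.mem_bot.1 hz
    exact n.commutes z
  let n' : GK K := ⟨n, hnG⟩
  have hxn : (fun y => w i (((x * n' : GK K) : Gal(AlgebraicClosure K/K)) y)) = w j :=
    funext fun y => hn2 y
  have hij : i = j := by
    refine above_unique (above_comp (hw i) (x * n')) (hw j) fun y => ?_
    have h4 := congrFun hxn ((y : (⊥ : IntermediateField K (AlgebraicClosure K))) :
      AlgebraicClosure K)
    change w i _ = _ at h4
    rw [h4]
  refine ⟨hij, ?_⟩
  subst hij
  refine ⟨x * n', fun y => congrFun hxn y, ?_⟩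
  rw [map_mul]
  have h5 : pi K n' = 1 := by
    have h6 : rho K n = rho K 1 := (rho_eq_iff _ _).2 hn1
    rw [map_one] at h6
    exact h6
  rw [h5, mul_one]

/-- the isomorphism of the decomposition groups -/
noncomputable def decEquiv {p : ℕ} (hp : p.Prime) {w : AlgebraicClosure K → ℝ} (hw : IsPl p w) :
    decF (⊥ : IntermediateField K (AlgebraicClosure K)) w ≃* dec w :=
  MulEquiv.ofBijective ((pi K).subgroupMap
    (decF (⊥ : IntermediateField K (AlgebraicClosure K)) w)) ⟨by
      intro a b hab
      have h1 : pi K a = pi K b := congrArg Subtype.val hab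
      exact Subtype.ext (Subtype.ext (dec_faithful hp hw a.2 b.2 ((rho_eq_iff _ _).1 h1))),
    (pi K).subgroupMap_surjective _⟩

theorem decEquiv_apply {p : ℕ} (hp : p.Prime) {w : AlgebraicClosure K → ℝ} (hw : IsPl p w)
    (g : decF (⊥ : IntermediateField K (AlgebraicClosure K)) w) :
    ((decEquiv hp hw g : dec w) : Gal(treal K/K)) = pi K g := rfl

theorem decEquiv_symm_continuous {p : ℕ} (hp : p.Prime) {w : AlgebraicClosure K → ℝ}
    (hw : IsPl p w) : Continuous (decEquiv hp hw).symm := by
  have h1 : Continuous (decEquiv hp hw).toEquiv :=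
    Continuous.subtype_mk (pi_continuous.comp continuous_subtype_val) _
  exact Continuous.continuous_symm_of_equiv_compact_to_t2 h1

/-- virtual characters of the decomposition groups -/
theorem transport {p : ℕ} (hp : p.Prime) {w : AlgebraicClosure K → ℝ} (hw : IsPl p w)
    {φ : decF (⊥ : IntermediateField K (AlgebraicClosure K)) w → ℂ}
    (hφ : φ ∈ RChar (decF (⊥ : IntermediateField K (AlgebraicClosure K)) w)) :
    (fun y => φ ((decEquiv hp hw).symm y)) ∈ RChar (dec w) :=
  rchar_comp (decEquiv hp hw).symm.toMonoidHom (decEquiv_symm_continuous hp hw) hφ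

end

end Pool.Agent.Q20.TR
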