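import Pool.Agent.Q20.TR.Fld
import Pool.Agent.Q273.SP.Comp

/-!
# Polynomials whose roots are totally real
-/

set_option autoImplicit false
set_option linter.unusedSectionVars false

namespace Pool.Agent.Q20.TR

open NumberField Polynomial Pool.Agent.Q273.SP

/-- the polynomial with the roots `0, 1, ..., n - 1` -/
noncomputable def h0 (R : Type) [CommRing R] (n : ℕ) : R[X] := ∏ i ∈ Finset.range n, (X - C (i : R))

theorem h0_monic (R : Type) [CommRing R] (n : ℕ) : (h0 R n).Monic :=
  monic_prod_of_monic _ _ fun i _ => monic_X_sub_C _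

theorem h0_deg (R : Type) [CommRing R] [Nontrivial R] (n : ℕ) : (h0 R n).natDegree = n := by
  unfold h0
  rw [natDegree_prod_of_monic _ _ fun i _ => monic_X_sub_C _]
  simp only [natDegree_X_sub_C, Finset.sum_const, Finset.card_range, smul_eq_mul, mul_one]

theorem h0_map {R S : Type} [CommRing R] [CommRing S] (φ : R →+* S) (n : ℕ) :
    (h0 R n).map φ = h0 S n := by
  unfold h0
  rw [Polynomial.map_prod]
  refine Finset.prod_congr rfl fun i _ => ?_
  rw [Polynomial.map_sub, map_X, map_C, map_natCast]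

theorem h0_eval (R : Type) [CommRing R] (n : ℕ) (x : R) :
    (h0 R n).eval x = ∏ i ∈ Finset.range n, (x - i) := by
  unfold h0
  rw [eval_prod]
  refine Finset.prod_congr rfl fun i _ => ?_
  rw [eval_sub, eval_X, eval_C]

/-- the test points -/
noncomputable def tp (j : ℕ) : ℝ := (j : ℝ) - 1 / 2

theorem tp_lt {i j : ℕ} (h : i < j) : tp i < tp j := by
  unfold tp
  have : (i : ℝ) < j := by exact_mod_cast h
  linarith

/-- the values at the test points alternate -/
theorem alt_val (n : ℕ) : ∀ j ≤ n, (1 / 2 : ℝ) ^ n ≤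
    (-1) ^ (n - j) * ∏ i ∈ Finset.range n, (tp j - i) := by
  intro j hj
  have h1 : (-1 : ℝ) ^ (n - j) * ∏ i ∈ Finset.range n, (tp j - i) =
      ∏ i ∈ Finset.range n, ((if i < j then 1 else -1) * (tp j - i)) := by
    rw [Finset.prod_mul_distrib]
    congr 1
    rw [Finset.prod_ite, Finset.prod_const_one, one_mul, Finset.prod_const]
    congr 1
    have h2 : Finset.filter (fun i => ¬ i < j) (Finset.range n) = Finset.Ico j n := by
      ext i
      simp [and_comm]
    rw [h2, Nat.card_Ico]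
  rw [h1]
  have h3 : (1 / 2 : ℝ) ^ n = ∏ _i ∈ Finset.range n, (1 / 2 : ℝ) := by
    rw [Finset.prod_const, Finset.card_range]
  rw [h3]
  refine Finset.prod_le_prod (fun i _ => by norm_num) fun i _ => ?_
  unfold tp
  split_ifs with h
  · have : (i : ℝ) + 1 ≤ j := by exact_mod_cast h
    linarith
  · have : (j : ℝ) ≤ i := by exact_mod_cast not_lt.1 h
    linarith

/-- a polynomial with real coefficients close to `h0 n` at the test points has real roots -/
theorem real_roots {n : ℕ} {P : ℂ[X]} (hP : P.Monic) (hn : P.natDegree = n)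
    (hreal : ∀ k, star (P.coeff k) = P.coeff k)
    (hclose : ∀ j ≤ n, ‖P.eval ((tp j : ℝ) : ℂ) - (h0 ℂ n).eval ((tp j : ℝ) : ℂ)‖ < (1 / 2 : ℝ) ^ n)
    {z : ℂ} (hz : P.eval z = 0) : star z = z := by
  classical
  have hP0 : P ≠ 0 := hP.ne_zero
  have hPr : ∀ t : ℝ, (((P.eval (t : ℂ)).re : ℝ) : ℂ) = P.eval (t : ℂ) := by
    intro t
    rw [← Complex.conj_eq_iff_re]
    have h1 := Polynomial.hom_eval₂ P (RingHom.id ℂ) (starRingEnd ℂ) (t : ℂ)
    rw [Polynomial.eval₂_id, RingHom.comp_id] at h1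
    rw [h1, Complex.conj_ofReal, ← Polynomial.eval_map]
    congr 1
    ext k
    rw [Polynomial.coeff_map]
    exact hreal k
  let G : ℝ → ℝ := fun t => (P.eval (t : ℂ)).re
  have hG : Continuous G := Complex.continuous_re.comp (P.continuous.comp Complex.continuous_ofReal)
  have hsign : ∀ j ≤ n, 0 < (-1 : ℝ) ^ (n - j) * G (tp j) := by
    intro j hj
    have h1 := alt_val n j hj
    have h2 : (h0 ℂ n).eval ((tp j : ℝ) : ℂ) = ((∏ i ∈ Finset.range n, (tp j - i) : ℝ) : ℂ) := by
      rw [h0_eval]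
      push_cast
      rfl
    have h3 := hclose j hj
    rw [← hPr, h2, ← Complex.ofReal_sub, Complex.norm_real, Real.norm_eq_abs] at h3
    have h4 : |(-1 : ℝ) ^ (n - j) * G (tp j) - (-1) ^ (n - j) * ∏ i ∈ Finset.range n, (tp j - i)| <
        (1 / 2 : ℝ) ^ n := by
      rw [← mul_sub, abs_mul, abs_pow, abs_neg, abs_one, one_pow, one_mul]
      exact h3
    have h5 := (abs_lt.1 h4).1
    linarith
  have hroot : ∀ j < n, ∃ x : ℝ, tp j < x ∧ x < tp (j + 1) ∧ P.eval (x : ℂ) = 0 := by
    intro j hj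
    have h1 := hsign j hj.le
    have h2 := hsign (j + 1) hj
    have h3 : n - j = (n - (j + 1)) + 1 := by omega
    rw [h3, pow_succ] at h1
    have hle : tp j ≤ tp (j + 1) := (tp_lt (Nat.lt_succ_self j)).le
    have hc : ContinuousOn G (Set.Icc (tp j) (tp (j + 1))) := hG.continuousOn
    have key : ∃ x ∈ Set.Ioo (tp j) (tp (j + 1)), G x = 0 := by
      rcases neg_one_pow_eq_or ℝ (n - (j + 1)) with h | h
      · rw [h] at h1 h2
        have h0 : (0 : ℝ) ∈ Set.Ioo (G (tp j)) (G (tp (j + 1))) := ⟨by linarith, by linarith⟩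
        obtain ⟨x, hx, hx0⟩ := intermediate_value_Ioo hle hc h0
        exact ⟨x, hx, hx0⟩
      · rw [h] at h1 h2
        have h0 : (0 : ℝ) ∈ Set.Ioo (G (tp (j + 1))) (G (tp j)) := ⟨by linarith, by linarith⟩
        obtain ⟨x, hx, hx0⟩ := intermediate_value_Ioo' hle hc h0
        exact ⟨x, hx, hx0⟩
    obtain ⟨x, hx, hx0⟩ := key
    refine ⟨x, hx.1, hx.2, ?_⟩
    rw [← hPr]
    change ((G x : ℝ) : ℂ) = 0
    rw [hx0, Complex.ofReal_zero]
  choose! x hx1 hx2 hx3 using hroot
  by_contra hne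
  have hinj : Set.InjOn x (Finset.range n : Set ℕ) := by
    intro i hi j hj hij
    have hi' : i < n := by simpa using hi
    have hj' : j < n := by simpa using hj
    by_contra h
    rcases lt_or_gt_of_ne h with h | h
    · have h4 : tp (i + 1) ≤ tp j := by
        rcases (Nat.succ_le_of_lt h).eq_or_lt with h5 | h5
        · rw [← h5]
        · exact (tp_lt h5).le
      have := hx2 i hi'
      have := hx1 j hj'
      linarith
    · have h4 : tp (j + 1) ≤ tp i := by
        rcases (Nat.succ_le_of_lt h).eq_or_lt with h5 | h5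
        · rw [← h5]
        · exact (tp_lt h5).le
      have := hx2 j hj'
      have := hx1 i hi'
      linarith
  let s : Finset ℂ := (Finset.range n).image fun i => ((x i : ℝ) : ℂ)
  have hs : s.card = n := by
    rw [Finset.card_image_of_injOn, Finset.card_range]
    intro i hi j hj hij
    exact hinj hi hj (Complex.ofReal_injective hij)
  have hzs : z ∉ s := by
    intro h
    obtain ⟨i, -, hi⟩ := Finset.mem_image.1 h
    apply hne
    rw [← hi]
    exact Complex.conj_ofReal _
  have hsub : insert z s ⊆ P.roots.toFinset := by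
    intro y hy
    rw [Multiset.mem_toFinset, mem_roots hP0]
    rcases Finset.mem_insert.1 hy with rfl | hy
    · exact hz
    · obtain ⟨i, hi, rfl⟩ := Finset.mem_image.1 hy
      exact hx3 i (Finset.mem_range.1 hi)
  have h1 := Finset.card_le_card hsub
  rw [Finset.card_insert_of_notMem hzs, hs] at h1
  have h2 := (Multiset.toFinset_card_le P.roots).trans (Polynomial.card_roots' P)
  omega

section
variable {K : Type} [Field K] [NumberField K]

/-- the conjugates of an algebraic number are bounded -/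
theorem bounded_emb (x : AlgebraicClosure K) :
    ∃ B : ℝ, ∀ φ : AlgebraicClosure K →+* ℂ, ‖φ x‖ ≤ B := by
  have h1 : IsAlgebraic ℤ x := algebraic_int x
  obtain ⟨P, hP, hx⟩ := h1
  have hfin : (Set.range fun φ : AlgebraicClosure K →+* ℂ => φ x).Finite := by
    have h2 : P.map (Int.castRingHom ℂ) ≠ 0 := by
      rw [Ne, Polynomial.map_eq_zero_iff (RingHom.injective_int _)]
      exact hP
    refine ((P.map (Int.castRingHom ℂ)).roots.toFinset.finite_toSet).subset ?_
    rintro _ ⟨φ, rfl⟩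
    rw [Finset.mem_coe, Multiset.mem_toFinset, mem_roots h2, IsRoot.def, eval_map]
    have h3 := congrArg φ hx
    rw [aeval_def, hom_eval₂, map_zero] at h3
    have h4 : φ.comp (algebraMap ℤ (AlgebraicClosure K)) = Int.castRingHom ℂ := RingHom.ext_int _ _
    rwa [h4] at h3
  obtain ⟨B, hB⟩ := (hfin.image fun z => ‖z‖).bddAbove
  exact ⟨B, fun φ => hB ⟨_, ⟨φ, rfl⟩, rfl⟩⟩

variable [IsTotallyReal K]

/-- **Polynomials with totally real roots.** -/
theorem tr_roots {n : ℕ} {Q : (AlgebraicClosure K)[X]} (hQ : Q.degree < n)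
    (hco : ∀ k, Q.coeff k ∈ treal K) :
    ∃ N₀ : ℕ, ∀ N : ℕ, N₀ ≤ N → ∀ γ : AlgebraicClosure K,
      (h0 (AlgebraicClosure K) n + C ((N : AlgebraicClosure K)⁻¹) * Q).eval γ = 0 → γ ∈ treal K := by
  have hb : ∀ j : ℕ, ∃ B : ℝ, ∀ φ : AlgebraicClosure K →+* ℂ,
      ‖φ (Q.eval ((j : AlgebraicClosure K) - 1 / 2))‖ ≤ B := fun j => bounded_emb _
  choose B hB using hb
  obtain ⟨N₀, hN₀⟩ := exists_nat_gt (∑ j ∈ Finset.range (n + 1), (2 : ℝ) ^ n * max (B j) 0)
  refine ⟨N₀, fun N hN γ hγ => ?_⟩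
  have hNpos : (0 : ℝ) < N := by
    have h1 : (0 : ℝ) ≤ ∑ j ∈ Finset.range (n + 1), (2 : ℝ) ^ n * max (B j) 0 :=
      Finset.sum_nonneg fun j _ => mul_nonneg (by positivity) (le_max_right _ _)
    have h2 : (N₀ : ℝ) ≤ N := by exact_mod_cast hN
    linarith
  rw [mem_treal]
  intro φ
  have hdeg : (C ((N : ℂ)⁻¹) * Q.map φ).degree < (h0 ℂ n).degree := by
    rw [degree_eq_natDegree (h0_monic ℂ n).ne_zero, h0_deg]
    refine lt_of_le_of_lt ((degree_mul_le _ _).trans ?_) hQ
    calc (C ((N : ℂ)⁻¹)).degree + (Q.map φ).degree ≤ 0 + Q.degree :=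
          add_le_add degree_C_le degree_map_le
      _ = Q.degree := zero_add _
  let P : ℂ[X] := h0 ℂ n + C ((N : ℂ)⁻¹) * Q.map φ
  have hPm : P.Monic := (h0_monic ℂ n).add_of_left hdeg
  have hPd : P.natDegree = n := by
    change (h0 ℂ n + C ((N : ℂ)⁻¹) * Q.map φ).natDegree = n
    rw [natDegree_add_eq_left_of_degree_lt hdeg, h0_deg]
  have hmap : (h0 (AlgebraicClosure K) n + C ((N : AlgebraicClosure K)⁻¹) * Q).map φ = P := by
    rw [Polynomial.map_add, Polynomial.map_mul, h0_map, map_C, map_inv₀, map_natCast]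
  refine real_roots hPm hPd (fun k => ?_) (fun j hj => ?_) (z := φ γ) ?_
  · have h1 : P.coeff k = (h0 ℂ n).coeff k + (N : ℂ)⁻¹ * φ (Q.coeff k) := by
      change (h0 ℂ n + C ((N : ℂ)⁻¹) * Q.map φ).coeff k = _
      rw [coeff_add, coeff_C_mul, coeff_map]
    have h2 : (h0 ℂ n).coeff k = (((h0 ℝ n).coeff k : ℝ) : ℂ) := by
      rw [← h0_map (Complex.ofRealHom) n, coeff_map]
      rfl
    rw [h1, h2, star_add, star_mul', mem_treal.1 (hco k) φ]
    have h3 : ∀ r : ℝ, star (r : ℂ) = r := fun r => Complex.conj_ofReal r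
    have h4 : star ((N : ℂ)⁻¹) = (N : ℂ)⁻¹ := by
      have := h3 ((N : ℝ)⁻¹)
      push_cast at this
      exact this
    rw [h3, h4]
  · have h1 : P.eval ((tp j : ℝ) : ℂ) - (h0 ℂ n).eval ((tp j : ℝ) : ℂ) =
        (N : ℂ)⁻¹ * φ (Q.eval ((j : AlgebraicClosure K) - 1 / 2)) := by
      change (h0 ℂ n + C ((N : ℂ)⁻¹) * Q.map φ).eval _ - _ = _
      rw [eval_add, add_sub_cancel_left, eval_mul, eval_C]
      congr 1
      have h2 : ((tp j : ℝ) : ℂ) = φ ((j : AlgebraicClosure K) - 1 / 2) := by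
        unfold tp
        rw [map_sub, map_natCast, map_div₀, map_one, map_ofNat]
        push_cast
        rfl
      rw [h2, eval_map, eval₂_at_apply]
    rw [h1, norm_mul, norm_inv, Complex.norm_natCast]
    have h2 := hB j φ
    have h3 : (2 : ℝ) ^ n * max (B j) 0 ≤ ∑ j ∈ Finset.range (n + 1), (2 : ℝ) ^ n * max (B j) 0 :=
      Finset.single_le_sum (f := fun j => (2 : ℝ) ^ n * max (B j) 0)
        (fun j _ => mul_nonneg (by positivity) (le_max_right _ _))
        (Finset.mem_range.2 (Nat.lt_succ_of_le hj))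
    have h4 : (2 : ℝ) ^ n * max (B j) 0 < N := by
      have h5 : (N₀ : ℝ) ≤ N := by exact_mod_cast hN
      linarith
    have h6 : (N : ℝ)⁻¹ * ‖φ (Q.eval ((j : AlgebraicClosure K) - 1 / 2))‖ ≤
        (N : ℝ)⁻¹ * max (B j) 0 :=
      mul_le_mul_of_nonneg_left (h2.trans (le_max_left _ _)) (inv_nonneg.2 hNpos.le)
    refine lt_of_le_of_lt h6 ?_
    rw [inv_mul_lt_iff₀ hNpos, one_div, inv_pow, ← div_eq_mul_inv, lt_div_iff₀ (by positivity),
      mul_comm]
    exact h4
  · rw [← hmap, eval_map, eval₂_at_apply, hγ, map_zero]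

end

section
variable {Ω : Type} [Field Ω] [IsAlgClosed Ω]

/-- a root near a point where the value is small -/
theorem near_root {p : ℕ} (hp : p.Prime) {w : Ω → ℝ} (hw : IsPl p w) {g : Polynomial Ω} (hg : g.Monic)
    {n : ℕ} (hn : g.natDegree = n) {x : Ω} {ε : ℝ} (hε : 0 < ε) (h : w (g.eval x) < ε ^ n) :
    ∃ γ, g.eval γ = 0 ∧ w (x - γ) < ε := by
  by_contra hcon
  push Not at hcon
  have hs := IsAlgClosed.splits g
  rw [hs.eval_eq_prod_roots_of_monic hg] at h
  have hcard : g.roots.card = n := by rw [← hn, hs.natDegree_eq_card_roots]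
  have key : ∀ s : Multiset Ω, (∀ γ ∈ s, ε ≤ w (x - γ)) →
      ε ^ s.card ≤ w (s.map fun a => x - a).prod := by
    intro s
    induction s using Multiset.induction with
    | empty =>
      intro _
      rw [Multiset.map_zero, Multiset.prod_zero, Multiset.card_zero, pow_zero, hw.one hp]
    | cons a s ih =>
      intro hs
      rw [Multiset.map_cons, Multiset.prod_cons, hw.mul, Multiset.card_cons, pow_succ']
      exact mul_le_mul (hs a (Multiset.mem_cons_self a s))
        (ih fun γ hγ => hs γ (Multiset.mem_cons_of_mem hγ)) (pow_nonneg hε.le _) (hw.nonneg _)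
  have h1 := key g.roots fun γ hγ => hcon γ ((mem_roots hg.ne_zero).1 hγ)
  rw [hcard] at h1
  exact absurd h (not_lt.2 h1)

end

end Pool.Agent.Q20.TR
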