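import Pool.Agent.Q20.TR.Pla
import Pool.Agent.Q20.TR.App
import Pool.Agent.Q20.TR.Mul
import Pool.Agent.Q20.LG.Ratl

/-!
# Local virtual characters from totally even ones
-/

set_option autoImplicit false
set_option linter.unusedSectionVars false

namespace Pool.Agent.Q20.TR

open NumberField IsDedekindDomain Pool.Agent.Q273.SP Pool.Agent.Q246.RP
open Pool.Agent.Q20.LG
open scoped Classical

section
variable {K : Type} [Field K] [NumberField K]

/-- the field `K` in `K̄` -/
noncomputable abbrev bt (K : Type) [Field K] : IntermediateField K (AlgebraicClosure K) := ⊥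

/-- the local group of virtual characters -/
noncomputable abbrev VL (F : IntermediateField K (AlgebraicClosure K))
    (w : AlgebraicClosure K → ℝ) : AddSubgroup (decF F w → ℂ) :=
  sat (AddSubgroup.closure (Unr (ineF F w)))

theorem mem_vl_iff {F : IntermediateField K (AlgebraicClosure K)} {v : HeightOneSpectrum (𝓞 F)}
    {w : AlgebraicClosure K → ℝ} (hw : Above F v w) {f : decF F w → ℂ} (hf : f ∈ RChar (decF F w)) :
    f ∈ VL F w ↔ Cond (ineF F w) f := by
  obtain ⟨⟨p, hp, hpw⟩, -⟩ := hw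
  exact local_criterion F hp hpw hf

/-- almost all primes are unramified -/
theorem fin_ram (F : IntermediateField K (AlgebraicClosure K)) [FiniteDimensional K F]
    {w : HeightOneSpectrum (𝓞 F) → (AlgebraicClosure K → ℝ)} (hw : ∀ v, Above F v (w v))
    {f : F.fixingSubgroup → ℂ} (hf : f ∈ RChar F.fixingSubgroup) :
    {v | resF F (w v) f ∉ VL F (w v)}.Finite := by
  obtain ⟨T₁, hT₁, h1⟩ := cond_unram F hf
  refine (finite_above F T₁ hT₁).subset fun v hv => ?_
  by_contra hcon
  apply hv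
  obtain ⟨⟨q, hq, hqw⟩, -⟩ := hw v
  have hqT : q ∉ T₁ := fun h => hcon ⟨q, h, (above_prime (hw v) hq).2 hqw⟩
  exact (mem_vl_iff (hw v) (rchar_res (decF F (w v)) hf)).2 (h1 q hq hqT (w v) hqw)

variable [IsTotallyReal K]

instance : IsGalois K (treal K) where

/-- inflation -/
noncomputable def infl (f : Gal(treal K/K) → ℂ) : (bt K).fixingSubgroup → ℂ := fun g => f (pi K g)

theorem infl_mem {f : Gal(treal K/K) → ℂ} (hf : f ∈ RChar Gal(treal K/K)) :
    infl f ∈ RChar (bt K).fixingSubgroup := rchar_comp (pi K) pi_continuous hf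

/-- **Surjectivity for the maximal totally real extension.** -/
theorem surjT {w : HeightOneSpectrum (𝓞 (bt K)) → (AlgebraicClosure K → ℝ)}
    (hw : ∀ v, Above (bt K) v (w v)) (S : Finset (HeightOneSpectrum (𝓞 (bt K))))
    (φ : ∀ v, decF (bt K) (w v) → ℂ) (hφ : ∀ v ∈ S, φ v ∈ RChar (decF (bt K) (w v))) :
    ∃ m : ℕ, 0 < m ∧ ∃ f ∈ RChar Gal(treal K/K),
      (∀ v ∈ S, ∀ g : decF (bt K) (w v), infl f g = m • (φ v g - φ v 1)) ∧
      ∀ v, v ∉ S → resF (bt K) (w v) (infl f) ∈ VL (bt K) (w v) := by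
  rcases S.eq_empty_or_nonempty with rfl | hSne
  · refine ⟨1, Nat.one_pos, 0, zero_mem _, fun v hv => absurd hv (Finset.notMem_empty v),
      fun v _ => ?_⟩
    exact (VL (bt K) (w v)).zero_mem
  choose! k hk using fun (v : HeightOneSpectrum (𝓞 (bt K))) (hv : v ∈ S) => rchar_one_int (hφ v hv)
  choose p hp hpw using fun v => (hw v).1
  -- the first approximation
  have hcl : ∀ v, IsClosed (dec (w v) : Set Gal(treal K/K)) := fun v => isClosed_decT (w v)
  obtain ⟨m₀, hm₀, f₀, hf₀, h1⟩ := approx (ι := S) (fun v => dec (w v)) (fun v => hcl v)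
    (fun i j x a b ha hb hab ha1 => by
      obtain ⟨h1, h2⟩ := indepT hw i j x a b ha hb hab ha1
      exact ⟨Subtype.ext h1, h2⟩)
    (fun v y => (φ v - k v • (fun _ : decF (bt K) (w v) => (1 : ℂ)))
      ((decEquiv (hp v) (hpw v)).symm y))
    (fun v => transport (hp v) (hpw v) (AddSubgroup.sub_mem (RChar (decF (bt K) (w v)))
      (hφ v v.2) (AddSubgroup.zsmul_mem _ one_mem_rchar _))) 0
    (fun v => by
      rw [map_one, Pi.sub_apply, hk v v.2, Pi.smul_apply, zsmul_eq_mul, mul_one, sub_self])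
  have hf₀v : ∀ v ∈ S, ∀ g : decF (bt K) (w v),
      f₀ (pi K g) = m₀ • (φ v g - k v) := by
    intro v hv g
    have h2 := h1 ⟨v, hv⟩ (decEquiv (hp v) (hpw v) g)
    rw [MulEquiv.symm_apply_apply, Pi.sub_apply, Pi.smul_apply, zsmul_eq_mul, mul_one] at h2
    exact h2
  have hf₀1 : f₀ 1 = 0 := by
    obtain ⟨v, hv⟩ := hSne
    have h2 := hf₀v v hv 1
    rw [OneMemClass.coe_one, map_one, hk v hv, sub_self, smul_zero] at h2
    exact h2
  -- the level of `f₀`
  obtain ⟨N, hN, hlift⟩ := exists_lift hf₀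
  have hNn : N.Normal := hN.1
  obtain ⟨f', -, hf'⟩ := hlift N le_rfl
  have hf₀N : ∀ g ∈ N, f₀ g = 0 := by
    intro g hg
    have h2 : QuotientGroup.mk' N g = QuotientGroup.mk' N 1 := by
      rw [map_one]
      exact (QuotientGroup.eq_one_iff g).2 hg
    rw [hf', h2, ← hf', hf₀1]
  have hreg := regular N hN.2.1
  set n : ℕ := Nat.card (Gal(treal K/K) ⧸ N) with hn
  have hnpos : 0 < n := by
    have hfin : Finite (Gal(treal K/K) ⧸ N) := Subgroup.quotient_finite_of_isOpen N hN.2.1
    exact Nat.card_pos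
  let R : Gal(treal K/K) → ℂ := fun g => if g ∈ N then (n : ℂ) else 0
  have hR : R ∈ RChar Gal(treal K/K) := hreg
  -- the ramified primes
  have hfin := fin_ram (bt K) hw (infl_mem hf₀)
  let S₁ : Finset (HeightOneSpectrum (𝓞 (bt K))) := hfin.toFinset
  -- the second approximation
  obtain ⟨m₁, hm₁, e, he, h2, h3⟩ := approxV (ι := (S ∪ S₁ : Finset _)) (fun v => dec (w v))
    (fun v => hcl v)
    (fun i j x a b ha hb hab ha1 => by
      obtain ⟨h1, h2⟩ := indepT hw i j x a b ha hb hab ha1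
      exact ⟨Subtype.ext h1, h2⟩)
    (fun v y => if (v : HeightOneSpectrum (𝓞 (bt K))) ∈ S then (n : ℂ) else R y)
    (fun v => by
      by_cases hv : (v : HeightOneSpectrum (𝓞 (bt K))) ∈ S
      · simp only [if_pos hv]
        have h4 := AddSubgroup.nsmul_mem (RChar (dec (w v))) one_mem_rchar n
        refine cast (congrArg (· ∈ RChar (dec (w v))) ?_) h4
        funext y
        rw [Pi.smul_apply, nsmul_eq_mul, mul_one]
      · simp only [if_neg hv]
        exact rchar_res (dec (w v)) hR) n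
    (fun v => by
      by_cases hv : (v : HeightOneSpectrum (𝓞 (bt K))) ∈ S
      · simp only [if_pos hv]
      · simp only [if_neg hv]
        exact if_pos N.one_mem)
  have hrat : ∀ g, ∃ q : ℚ, e g = q := by
    intro g
    rcases h3 g with h4 | ⟨i, a, h4⟩
    · exact ⟨0, by rw [h4, Rat.cast_zero]⟩
    · rw [h4]
      by_cases hv : (i : HeightOneSpectrum (𝓞 (bt K))) ∈ S
      · simp only [if_pos hv]
        exact ⟨m₁ * n, by push_cast; rw [nsmul_eq_mul]⟩
      · simp only [if_neg hv]
        by_cases ha : (a : Gal(treal K/K)) ∈ N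
        · refine ⟨m₁ * n, ?_⟩
          change m₁ • (if (a : Gal(treal K/K)) ∈ N then (n : ℂ) else 0) = _
          rw [if_pos ha]
          push_cast
          rw [nsmul_eq_mul]
        · refine ⟨0, ?_⟩
          change m₁ • (if (a : Gal(treal K/K)) ∈ N then (n : ℂ) else 0) = _
          rw [if_neg ha, smul_zero, Rat.cast_zero]
  have hmem : ∀ v (g : decF (bt K) (w v)), pi K g ∈ dec (w v) := fun v g => ⟨g, g.2, rfl⟩
  refine ⟨m₁ * n * m₀, Nat.mul_pos (Nat.mul_pos hm₁ hnpos) hm₀, fun g => e g * f₀ g,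
    rchar_mul he hf₀, fun v hv => ?_, fun v hv => ?_⟩
  · intro g
    have h5 := h2 ⟨v, Finset.mem_union_left _ hv⟩ ⟨_, hmem v g⟩
    simp only [if_pos hv] at h5
    change e (pi K g) * f₀ (pi K g) = _
    rw [h5, hf₀v v hv, hk v hv, nsmul_eq_mul, nsmul_eq_mul, nsmul_eq_mul]
    push_cast
    ring
  · by_cases hv1 : v ∈ S₁
    · have h4 : resF (bt K) (w v) (infl fun g => e g * f₀ g) = 0 := by
        funext g
        have h5 := h2 ⟨v, Finset.mem_union_right _ hv1⟩ ⟨_, hmem v g⟩
        simp only [if_neg hv] at h5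
        change e (pi K g) * f₀ (pi K g) = 0
        rw [h5]
        by_cases hg : pi K g ∈ N
        · rw [hf₀N _ hg, mul_zero]
        · change m₁ • (if pi K g ∈ N then (n : ℂ) else 0) * _ = 0
          rw [if_neg hg, smul_zero, zero_mul]
      rw [h4]
      exact (VL (bt K) (w v)).zero_mem
    · have h4 : resF (bt K) (w v) (infl f₀) ∈ VL (bt K) (w v) := by
        by_contra h5
        exact hv1 (hfin.mem_toFinset.2 h5)
      have h4 := (mem_vl_iff (hw v) (rchar_res _ (infl_mem hf₀))).1 h4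
      refine (mem_vl_iff (hw v) (rchar_res _ (infl_mem (rchar_mul he hf₀)))).2 ?_
      intro a b hab ht
      have h5 := h4 a b hab ht
      obtain ⟨q, hq⟩ := hrat (pi K a)
      have h6 := rat_same (rchar_res (decF (bt K) (w v)) (infl_mem he)) hab (q := q) hq
      change e (pi K a) * f₀ (pi K a) = e (pi K b) * f₀ (pi K b)
      change f₀ (pi K a) = f₀ (pi K b) at h5
      change e (pi K a) = e (pi K b) at h6
      rw [h5, h6]

end

end Pool.Agent.Q20.TR
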